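import Mathlib

/-!
Consequences of identities with one simple letter.
-/

namespace Pool.Agent.Helper14_MV

section
variable {M : Type*} [Monoid M]

theorem periodic_iter {K n : ℕ} (h : ∀ x : M, x ^ (K + n) = x ^ K) (x : M) {N : ℕ} (hN : K ≤ N)
    (r : ℕ) : x ^ (N + r * n) = x ^ N := by
  induction r with
  | zero => simp
  | succ r ih =>
    obtain ⟨m, rfl⟩ : ∃ m, N = K + m := ⟨N - K, by omega⟩
    have h1 : K + m + (r + 1) * n = (K + n) + (m + r * n) := by ring
    have h2 : K + m + r * n = K + (m + r * n) := by ring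
    rw [h1, pow_add, h x, ← pow_add, ← h2, ih]

/-- unequal exponents give periodicity -/
theorem periodic_of_ne {a b : ℕ} (hab : a ≠ b) (h : ∀ x : M, x ^ a = x ^ b) :
    ∃ K n, 1 ≤ n ∧ ∀ x : M, x ^ (K + n) = x ^ K := by
  rcases Nat.lt_or_gt_of_ne hab with h1 | h1
  · exact ⟨a, b - a, by omega, fun x => by rw [show a + (b - a) = b by omega]; exact (h x).symm⟩
  · exact ⟨b, a - b, by omega, fun x => by rw [show b + (a - b) = a by omega]; exact h x⟩

theorem idem_pow {y : M} (hy : y * y = y) {k : ℕ} (hk : 1 ≤ k) : y ^ k = y := by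
  obtain ⟨m, rfl⟩ : ∃ m, k = m + 1 := ⟨k - 1, by omega⟩
  clear hk
  induction m with
  | zero => simp
  | succ m ih => rw [pow_succ, ih, hy]

/-- central powers, periodic case -/
theorem central_periodic {K n : ℕ} (hn : 1 ≤ n) (hp : ∀ x : M, x ^ (K + n) = x ^ K)
    {i j k i' j' k' : ℕ} (hi : 1 ≤ i) (hi' : 1 ≤ i')
    (h1 : ∀ x t : M, x ^ i * t * x ^ j = t * x ^ k)
    (h2 : ∀ x t : M, x ^ j' * t * x ^ i' = x ^ k' * t) :
    ∃ w, 1 ≤ w ∧ ∀ x t : M, x ^ w * t = t * x ^ w := by
  refine ⟨(K + 1) * n, Nat.mul_pos (by omega) hn, fun x t => ?_⟩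
  set y := x ^ ((K + 1) * n) with hy
  have hyy : y * y = y := by
    rw [hy, ← pow_add]
    exact periodic_iter hp x (by nlinarith) (K + 1)
  -- from the first identity
  have h3 : y * t * y = t * y ∨ y * t = t * y := by
    have e := h1 y t
    rw [idem_pow hyy hi] at e
    rcases Nat.eq_zero_or_pos k with hk | hk
    · have e1 := h1 y 1
      rw [hk, pow_zero, mul_one, mul_one, ← pow_add, idem_pow hyy (by omega)] at e1
      right; rw [e1, one_mul, mul_one]
    · rw [idem_pow hyy hk] at e
      rcases Nat.eq_zero_or_pos j with hj | hj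
      · right; simpa [hj] using e
      · left; rw [idem_pow hyy hj] at e; exact e
  have h4 : y * t * y = y * t ∨ t * y = y * t := by
    have e := h2 y t
    rw [idem_pow hyy hi'] at e
    rcases Nat.eq_zero_or_pos k' with hk | hk
    · have e1 := h2 y 1
      rw [hk, pow_zero, mul_one, mul_one, ← pow_add, idem_pow hyy (by omega)] at e1
      right; rw [e1, one_mul, mul_one]
    · rw [idem_pow hyy hk] at e
      rcases Nat.eq_zero_or_pos j' with hj | hj
      · right; simpa [hj] using e
      · left; rw [idem_pow hyy hj] at e; exact e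
  rcases h3 with h3 | h3
  · rcases h4 with h4 | h4
    · rw [← h4, h3]
    · exact h4.symm
  · exact h3

theorem shift1 {a b : ℕ} (h : ∀ x t : M, x ^ a * t * x ^ b = t * x ^ (a + b)) (x t : M) (r : ℕ) :
    ∀ N, b ≤ N → t * x ^ (N + r * a) = x ^ (r * a) * t * x ^ N := by
  induction r with
  | zero => intro N _; simp
  | succ r ih =>
    intro N hN
    have h1 : N + (r + 1) * a = (N + a) + r * a := by ring
    rw [h1, ih (N + a) (by omega)]
    obtain ⟨m, rfl⟩ : ∃ m, N = b + m := ⟨N - b, by omega⟩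
    have h2 : b + m + a = (a + b) + m := by ring
    have h3 : (r + 1) * a = r * a + a := by ring
    rw [h2, pow_add x (a + b) m, ← mul_assoc, mul_assoc (x ^ (r * a)) t, ← h x t, h3, pow_add,
      pow_add]
    simp only [mul_assoc]

theorem shift2 {a b : ℕ} (h : ∀ x t : M, x ^ b * t * x ^ a = x ^ (a + b) * t) (x t : M) (r : ℕ) :
    ∀ N, b ≤ N → x ^ (N + r * a) * t = x ^ N * t * x ^ (r * a) := by
  induction r with
  | zero => intro N _; simp
  | succ r ih =>
    intro N hN
    have h1 : N + (r + 1) * a = (N + a) + r * a := by ring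
    rw [h1, ih (N + a) (by omega)]
    obtain ⟨m, rfl⟩ : ∃ m, N = m + b := ⟨N - b, by omega⟩
    have h2 : m + b + a = m + (a + b) := by ring
    have h3 : (r + 1) * a = a + r * a := by ring
    rw [h2, pow_add x m (a + b), mul_assoc (x ^ m), ← h x t, h3, pow_add, pow_add]
    simp only [mul_assoc]

/-- central powers, balanced case -/
theorem central_balanced {i j i' j' : ℕ} (hi : 1 ≤ i) (hi' : 1 ≤ i')
    (h1 : ∀ x t : M, x ^ i * t * x ^ j = t * x ^ (i + j))
    (h2 : ∀ x t : M, x ^ j' * t * x ^ i' = x ^ (i' + j') * t) :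
    ∃ w, 1 ≤ w ∧ ∀ x t : M, x ^ w * t = t * x ^ w := by
  refine ⟨(j' + 1) * i + (j + 1) * i', by nlinarith, fun x t => ?_⟩
  have e1 := shift1 h1 x t (j' + 1) ((j + 1) * i') (by nlinarith)
  have e2 := shift2 h2 x t (j + 1) ((j' + 1) * i) (by nlinarith)
  rw [e2, ← e1, add_comm]

/-- main arithmetic lemma -/
theorem central_all {i j k i' j' k' : ℕ} (hi : 1 ≤ i) (hi' : 1 ≤ i')
    (h1 : ∀ x t : M, x ^ i * t * x ^ j = t * x ^ k)
    (h2 : ∀ x t : M, x ^ j' * t * x ^ i' = x ^ k' * t)
    (h3 : ∀ p : ℕ, p.Prime → ∃ a b c d : ℕ, (∀ x t : M, x ^ a * t * x ^ b = x ^ c * t * x ^ d) ∧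
      ¬ a ≡ c [MOD p]) :
    ∃ w, 1 ≤ w ∧ ∀ m, w ≤ m → ∀ x t : M, x ^ m * t = t * x ^ m := by
  obtain ⟨k0, hk0, hc⟩ : ∃ w, 1 ≤ w ∧ ∀ x t : M, x ^ w * t = t * x ^ w := by
    by_cases hb1 : k = i + j
    · by_cases hb2 : k' = i' + j'
      · subst hb1; subst hb2
        exact central_balanced hi hi' h1 h2
      · have h4 : ∀ x : M, x ^ (i' + j') = x ^ k' := by
          intro x
          have := h2 x 1
          rw [mul_one, mul_one, ← pow_add] at this
          rw [add_comm]; exact this
        obtain ⟨K, n, hn, hp⟩ := periodic_of_ne (Ne.symm hb2) h4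
        exact central_periodic hn hp hi hi' h1 h2
    · have h4 : ∀ x : M, x ^ (i + j) = x ^ k := by
        intro x
        have := h1 x 1
        rw [mul_one, one_mul, ← pow_add] at this
        exact this
      obtain ⟨K, n, hn, hp⟩ := periodic_of_ne (Ne.symm hb1) h4
      exact central_periodic hn hp hi hi' h1 h2
  -- the set D
  let D : ℕ → Prop := fun d => ∃ N, ∀ x t : M, ∀ a b, N ≤ a → N ≤ b →
    x ^ (a + d) * t * x ^ b = x ^ a * t * x ^ (b + d)
  have D0 : D k0 := by
    refine ⟨0, fun x t a b _ _ => ?_⟩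
    rw [pow_add, mul_assoc (x ^ a), hc x t, add_comm b k0, pow_add]
    simp only [mul_assoc]
  have Dsub : ∀ d e, e ≤ d → D d → D e → D (d - e) := by
    rintro d e hed ⟨N1, hN1⟩ ⟨N2, hN2⟩
    refine ⟨N1 + N2 + e, fun x t a b ha hb => ?_⟩
    obtain ⟨b', rfl⟩ : ∃ b', b = b' + e := ⟨b - e, by omega⟩
    rw [← hN2 x t (a + (d - e)) b' (by omega) (by omega),
      show a + (d - e) + e = a + d by omega, hN1 x t a b' (by omega) (by omega)]
    congr 2
    omega
  have Dex : ∃ d, 1 ≤ d ∧ D d := ⟨k0, hk0, D0⟩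
  classical
  let g := Nat.find Dex
  have hg : 1 ≤ g ∧ D g := Nat.find_spec Dex
  have hmin : ∀ d, 1 ≤ d → D d → g ≤ d := fun d h1 h2 => Nat.find_min' Dex ⟨h1, h2⟩
  have hdvd : ∀ d, D d → g ∣ d := by
    intro d
    induction d using Nat.strong_induction_on with
    | _ d ih =>
      intro hd
      rcases Nat.eq_zero_or_pos d with h0 | h0
      · rw [h0]; exact dvd_zero g
      · have hle := hmin d h0 hd
        have h5 := ih (d - g) (by omega) (Dsub d g hle hd hg.2)
        have : d = (d - g) + g := by omega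
        rw [this]
        exact dvd_add h5 (dvd_refl g)
  have hg1 : g = 1 := by
    by_contra hne
    obtain ⟨p, hp, hpg⟩ := Nat.exists_prime_and_dvd hne
    obtain ⟨a, b, c, d, hid, hnm⟩ := h3 p hp
    -- a difference which is in D
    have key : ∀ a b c d : ℕ, (∀ x t : M, x ^ a * t * x ^ b = x ^ c * t * x ^ d) → c < a →
        D (a - c) := by
      intro a b c d hid hca
      by_cases hbal : a + b = c + d
      · refine ⟨c + b, fun x t m m' hm hm' => ?_⟩
        obtain ⟨u, rfl⟩ : ∃ u, m = u + c := ⟨m - c, by omega⟩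
        obtain ⟨v, rfl⟩ : ∃ v, m' = b + v := ⟨m' - b, by omega⟩
        have e1 : u + c + (a - c) = u + a := by omega
        have e2 : b + v + (a - c) = d + v := by omega
        rw [e1, e2, pow_add x u a, pow_add x b v, pow_add x u c, pow_add x d v]
        have := hid x t
        calc x ^ u * x ^ a * t * (x ^ b * x ^ v) = x ^ u * (x ^ a * t * x ^ b) * x ^ v := by
              simp only [mul_assoc]
          _ = x ^ u * (x ^ c * t * x ^ d) * x ^ v := by rw [this]
          _ = _ := by simp only [mul_assoc]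
      · have h4 : ∀ x : M, x ^ (a + b) = x ^ (c + d) := by
          intro x
          have := hid x 1
          rw [mul_one, mul_one, ← pow_add, ← pow_add] at this
          exact this
        refine ⟨a + b + c + d, fun x t m m' hm hm' => ?_⟩
        obtain ⟨u, rfl⟩ : ∃ u, m = u + c := ⟨m - c, by omega⟩
        obtain ⟨v, rfl⟩ : ∃ v, m' = b + v := ⟨m' - b, by omega⟩
        have e1 : u + c + (a - c) = u + a := by omega
        rw [e1, pow_add x u a, pow_add x b v, pow_add x u c]
        have := hid x t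
        have h5 : x ^ u * x ^ a * t * (x ^ b * x ^ v) = x ^ u * x ^ c * t * x ^ (d + v) := by
          calc x ^ u * x ^ a * t * (x ^ b * x ^ v) = x ^ u * (x ^ a * t * x ^ b) * x ^ v := by
                simp only [mul_assoc]
            _ = x ^ u * (x ^ c * t * x ^ d) * x ^ v := by rw [this]
            _ = _ := by rw [pow_add]; simp only [mul_assoc]
        rw [h5]
        congr 1
        -- x^(d+v) = x^(b+v+(a-c))
        obtain ⟨s, hs⟩ : ∃ s, b + v + (a - c) = (a + b) + s :=
          ⟨v - c, by omega⟩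
        have h6 : d + v = (c + d) + s := by omega
        rw [hs, h6, pow_add x (c + d) s, pow_add x (a + b) s, h4]
    rcases Nat.lt_trichotomy c a with h5 | h5 | h5
    · have h6 := key a b c d hid h5
      have h7 := dvd_trans hpg (hdvd _ h6)
      exact hnm ((Nat.modEq_iff_dvd' h5.le).2 h7).symm
    · exact hnm (by rw [h5])
    · have h6 := key c d a b (fun x t => (hid x t).symm) h5
      have h7 := dvd_trans hpg (hdvd _ h6)
      exact hnm ((Nat.modEq_iff_dvd' h5.le).2 h7)
  obtain ⟨N, hN⟩ : D 1 := hg1 ▸ hg.2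
  have hstep : ∀ x t : M, ∀ l a b, N ≤ a → N ≤ b → x ^ (a + l) * t * x ^ b = x ^ a * t * x ^ (b + l) := by
    intro x t l
    induction l with
    | zero => intro a b _ _; simp
    | succ l ih =>
      intro a b ha hb
      rw [show a + (l + 1) = a + l + 1 by ring, hN x t (a + l) b (by omega) hb,
        ih a (b + 1) ha (by omega)]
      congr 2
      ring
  have hcq : ∀ q, ∀ x t : M, x ^ (q * k0) * t = t * x ^ (q * k0) := by
    intro q x t
    rw [pow_mul]
    exact hc (x ^ q) t
  refine ⟨2 * (N * k0) + 1, by omega, fun m hm x t => ?_⟩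
  have hNk : N ≤ N * k0 := Nat.le_mul_of_pos_right N hk0
  obtain ⟨l, rfl⟩ : ∃ l, m = N * k0 + l + N * k0 := ⟨m - 2 * (N * k0), by omega⟩
  calc x ^ (N * k0 + l + N * k0) * t = x ^ (N * k0 + l) * (x ^ (N * k0) * t) := by
        rw [pow_add x (N * k0 + l), mul_assoc]
    _ = x ^ (N * k0 + l) * t * x ^ (N * k0) := by rw [hcq N x t, mul_assoc]
    _ = x ^ (N * k0) * t * x ^ (N * k0 + l) := hstep x t l _ _ hNk hNk
    _ = t * (x ^ (N * k0) * x ^ (N * k0 + l)) := by rw [hcq N x t, mul_assoc]
    _ = t * x ^ (N * k0 + l + N * k0) := by rw [← pow_add]; congr 2; ring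

end

end Pool.Agent.Helper14_MV
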