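import Pool.Agent.Helper14_MV.CR
import Pool.Agent.Helper14_MV.Arith
import Pool.Agent.Helper4_MV.Iso

/-!
Modularity when `x ^ 2` is an isoterm: large powers are central.
-/

namespace Pool.Agent.Helper14_MV

open FreeMonoid (of)

/-- number of occurrences -/
def cnt (i : ℕ) (w : Word) : ℕ := w.toList.count i

@[simp] theorem cnt_one (i : ℕ) : cnt i 1 = 0 := rfl

@[simp] theorem cnt_mul (i : ℕ) (a b : Word) : cnt i (a * b) = cnt i a + cnt i b := by
  simp [cnt, FreeMonoid.toList_mul, List.count_append]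

theorem cnt_of (i j : ℕ) : cnt i (of j) = if j = i then 1 else 0 := by
  simp [cnt, FreeMonoid.toList_of, List.count_singleton]

@[simp] theorem cnt_pow (i : ℕ) (a : Word) (n : ℕ) : cnt i (a ^ n) = n * cnt i a := by
  induction n with
  | zero => simp
  | succ n ih => rw [pow_succ, cnt_mul, ih]; ring

theorem cnt_eq_zero {i : ℕ} {w : Word} : cnt i w = 0 ↔ i ∉ ct w := by
  rw [cnt, ct, List.count_eq_zero, List.mem_toFinset]

theorem eq_one_of_cnt {w : Word} (h : ∀ i, cnt i w = 0) : w = 1 := by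
  apply ct_eq_empty
  ext i
  simp [cnt_eq_zero.1 (h i)]

theorem cnt_lx (i : ℕ) : cnt i lx = if (0 : ℕ) = i then 1 else 0 := cnt_of i 0
theorem cnt_ly (i : ℕ) : cnt i ly = if (1 : ℕ) = i then 1 else 0 := cnt_of i 1

theorem lx_pow_inj {m n : ℕ} (h : lx ^ m = lx ^ n) : m = n := by
  have := congrArg (cnt 0) h
  simpa [cnt_lx] using this

/-- words in the letter `x` only -/
theorem pow_of_ct {w : Word} (h : ct w ⊆ {0}) : w = lx ^ (cnt 0 w) := by
  induction w using FreeMonoid.inductionOn' with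
  | one => simp
  | of_mul b u ih =>
    have hb : b = 0 := by
      have : b ∈ ct (of b * u) := by simp
      simpa using h this
    subst hb
    have hu : ct u ⊆ {0} := fun i hi => h (by simp [hi])
    rw [cnt_mul, cnt_of, if_pos rfl, add_comm, pow_succ']
    conv_lhs => rw [ih hu]
    rfl

/-- the substitution counting the letter `i` -/
def cs (i : ℕ) : Word →* Word := FreeMonoid.lift (fun j => if j = i then lx else 1)

theorem cs_apply (i : ℕ) (w : Word) : cs i w = lx ^ cnt i w := by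
  induction w using FreeMonoid.inductionOn' with
  | one => simp
  | of_mul b u ih =>
    rw [map_mul, ih, cnt_mul, cnt_of, cs, FreeMonoid.lift_eval_of]
    by_cases hb : b = i
    · rw [if_pos hb, if_pos hb, add_comm, pow_succ']
    · rw [if_neg hb, if_neg hb, one_mul, zero_add]

/-- `{1, x, x^2}` -/
def I2 : Set Word := {w | w = lx ^ 0 ∨ w = lx ^ 1 ∨ w = lx ^ 2}

theorem mem_I2 {w : Word} : w ∈ I2 ↔ ∃ k, k ≤ 2 ∧ w = lx ^ k := by
  constructor
  · rintro (h | h | h)
    · exact ⟨0, by norm_num, h⟩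
    · exact ⟨1, by norm_num, h⟩
    · exact ⟨2, by norm_num, h⟩
  · rintro ⟨k, hk, rfl⟩
    interval_cases k
    · exact Or.inl rfl
    · exact Or.inr (Or.inl rfl)
    · exact Or.inr (Or.inr rfl)

theorem mul_eq_pow {u v : Word} {k : ℕ} (h : u * v = lx ^ k) :
    u = lx ^ cnt 0 u ∧ v = lx ^ cnt 0 v ∧ cnt 0 u + cnt 0 v = k := by
  have h1 : ct (u * v) ⊆ {0} := by
    rw [h]
    exact (ct_pow_sub lx k).trans (by simp [lx])
  rw [ct_mul] at h1
  have hu := pow_of_ct (Finset.union_subset_left h1)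
  have hv := pow_of_ct (Finset.union_subset_right h1)
  refine ⟨hu, hv, ?_⟩
  have := congrArg (cnt 0) h
  simpa [cnt_lx] using this

theorem fac_I2 : Fac I2 := by
  intro u v h
  obtain ⟨k, hk, h1⟩ := mem_I2.1 h
  obtain ⟨hu, hv, h2⟩ := mul_eq_pow h1
  exact ⟨mem_I2.2 ⟨_, by omega, hu⟩, mem_I2.2 ⟨_, by omega, hv⟩⟩

/-- theory of `C_3` -/
def thC3 : FIC := iso I2 fac_I2

theorem le_thC3 {β : FIC} (h : ∀ w, β.r (lx ^ 2) w → w = lx ^ 2) : β ≤ thC3 := by
  rw [thC3, le_iso_iff]
  intro w hw v hv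
  obtain ⟨k, hk, rfl⟩ := mem_I2.1 hw
  have h1 : β.r (lx ^ (2 - k) * lx ^ k) (lx ^ (2 - k) * v) := FIC.mulL _ hv
  rw [← pow_add, show 2 - k + k = 2 by omega] at h1
  have h2 := h _ h1
  obtain ⟨_, h4, h5⟩ := mul_eq_pow h2
  rw [h4]
  congr 1
  have : cnt 0 (lx ^ (2 - k)) = 2 - k := by simp [cnt_lx]
  omega

theorem cnt_thC3 {w w' : Word} (h : thC3.r w w') {i : ℕ} (hi : cnt i w ≤ 2) :
    cnt i w' = cnt i w := by
  have h1 := (h (cs i) (lx ^ cnt i w) (mem_I2.2 ⟨_, hi, rfl⟩)).1 (cs_apply i w)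
  rw [cs_apply] at h1
  exact lx_pow_inj h1

/-- the property: the letter `y` is simple and the number of occurrences of `x` before it is
in `S` -/
def PS (S : ℕ → Prop) (w : Word) : Prop :=
  ∃ l m, w = l * ly * m ∧ 1 ∉ ct l ∧ 1 ∉ ct m ∧ S (cnt 0 l)

/-- the largest fully invariant congruence preserving the property `P` -/
def gam (P : Word → Prop) : FIC where
  r := fun u v => ∀ (φ : Word →* Word) (m q : Word), P (m * φ u * q) ↔ P (m * φ v * q)
  refl := fun _ _ _ _ => Iff.rfl
  symm := fun h φ m q => (h φ m q).symm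
  trans := fun h k φ m q => (h φ m q).trans (k φ m q)
  mul := by
    intro a b c d h k φ m q
    rw [map_mul, map_mul]
    have h1 := h φ m (φ c * q)
    have h2 := k φ (m * φ b) q
    simp only [mul_assoc] at h1 h2 ⊢
    exact h1.trans h2
  sub := fun ψ _ _ h φ m q => h (φ.comp ψ) m q

theorem split_ly {w : Word} (h : cnt 1 w = 1) : ∃ l m, w = l * ly * m ∧ 1 ∉ ct l ∧ 1 ∉ ct m := by
  have h1 : (1 : ℕ) ∈ ct w := by
    by_contra h2
    rw [cnt_eq_zero.2 h2] at h
    exact absurd h (by norm_num)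
  obtain ⟨l, m, rfl⟩ := word_split h1
  rw [cnt_mul, cnt_mul, cnt_of, if_pos rfl] at h
  exact ⟨l, m, rfl, cnt_eq_zero.1 (by omega), cnt_eq_zero.1 (by omega)⟩

theorem split_uniq {l m l' m' : Word} (h : l * ly * m = l' * ly * m') (hl : 1 ∉ ct l)
    (hl' : 1 ∉ ct l') : l = l' := by
  have := FIC.Dec.uniq_list (a := 1) (FreeMonoid.toList l) (FreeMonoid.toList l')
    (FreeMonoid.toList m) (FreeMonoid.toList m')
    (fun h' => hl (by rw [ct, List.mem_toFinset]; exact h'))
    (fun h' => hl' (by rw [ct, List.mem_toFinset]; exact h'))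
    (by
      have := congrArg FreeMonoid.toList h
      simpa [ly, FreeMonoid.toList_mul, FreeMonoid.toList_of] using this)
  exact FreeMonoid.toList.injective this

theorem er_split {l : Word} (h : 1 ∉ ct l) : er {0, 1} l = lx ^ cnt 0 l := by
  rw [← cs_apply]
  apply hom_congr
  intro i hi
  by_cases h0 : i = 0
  · subst h0
    rw [er_of_mem (by simp)]
    simp [cs, FreeMonoid.lift_eval_of, lx]
  · have h1 : i ≠ 1 := fun h' => h (h' ▸ hi)
    rw [er_of_not_mem (by simp [h0, h1])]
    simp [cs, FreeMonoid.lift_eval_of, h0]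

/-- extraction of an identity -/
theorem extract {β : FIC} (hβ : β ≤ thC3) {S : ℕ → Prop} (h : ¬ β ≤ gam (PS S)) :
    ∃ i j i' j', β.r (lx ^ i * ly * lx ^ j) (lx ^ i' * ly * lx ^ j') ∧ S i ∧ ¬ S i' := by
  have key : ∀ w w' : Word, β.r w w' → PS S w → ¬ PS S w' →
      ∃ i j i' j', β.r (lx ^ i * ly * lx ^ j) (lx ^ i' * ly * lx ^ j') ∧ S i ∧ ¬ S i' := by
    rintro w w' hw ⟨l, m, rfl, hl, hm, hS⟩ hn
    have hc : cnt 1 (l * ly * m) = 1 := by
      rw [cnt_mul, cnt_mul, cnt_eq_zero.2 hl, cnt_eq_zero.2 hm, cnt_ly, if_pos rfl]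
    have hc' : cnt 1 w' = 1 := by
      rw [cnt_thC3 (hβ _ _ hw) (by omega), hc]
    obtain ⟨l', m', rfl, hl', hm'⟩ := split_ly hc'
    have h1 := β.sub (er {0, 1}) hw
    rw [map_mul, map_mul, map_mul, map_mul, er_split hl, er_split hm, er_split hl', er_split hm']
      at h1
    have h2 : er {0, 1} ly = ly := er_of_mem (by simp)
    rw [h2] at h1
    exact ⟨_, _, _, _, h1, hS, fun h3 => hn ⟨l', m', rfl, hl', hm', h3⟩⟩
  by_contra hcon
  apply h
  intro u v huv φ m q
  have h1 : β.r (m * φ u * q) (m * φ v * q) := β.mul (β.mul (β.refl m) (β.sub φ huv)) (β.refl q)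
  constructor
  · intro hP
    by_contra hn
    exact hcon (key _ _ h1 hP hn)
  · intro hP
    by_contra hn
    exact hcon (key _ _ (β.symm h1) hP hn)

/-- replacing a factor of the form `s^e` by `s^f` -/
theorem gam_pow {S : ℕ → Prop} {e f : ℕ} (he : 2 ≤ e) (hf : 2 ≤ f)
    (hS : ∀ c d : ℕ, S (c + e * d) ↔ S (c + f * d)) : (gam (PS S)).r (lx ^ e) (lx ^ f) := by
  have key : ∀ (e f : ℕ), 2 ≤ e → 2 ≤ f → (∀ c d : ℕ, S (c + e * d) → S (c + f * d)) →
      ∀ m s q : Word, PS S (m * s ^ e * q) → PS S (m * s ^ f * q) := by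
    intro e f he hf hS m s q
    rintro ⟨l, r, hlr, hl, hr, hSl⟩
    -- ly does not occur in s
    have hc := congrArg (cnt 1) hlr
    rw [cnt_mul, cnt_mul, cnt_mul, cnt_mul, cnt_pow, cnt_eq_zero.2 hl, cnt_eq_zero.2 hr, cnt_ly,
      if_pos rfl] at hc
    have hs : cnt 1 s = 0 := by
      rcases Nat.eq_zero_or_pos (cnt 1 s) with h | h
      · exact h
      · exfalso; nlinarith
    rw [hs, mul_zero, add_zero, add_zero, zero_add] at hc
    rcases Nat.eq_zero_or_pos (cnt 1 m) with h0 | h0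
    · -- ly is in q
      have hq : cnt 1 q = 1 := by omega
      obtain ⟨l', r', rfl, hl', hr'⟩ := split_ly hq
      have h1 : m * s ^ e * l' * ly * r' = l * ly * r := by rw [← hlr]; simp only [mul_assoc]
      have h2 : 1 ∉ ct (m * s ^ e * l') := by
        rw [← cnt_eq_zero, cnt_mul, cnt_mul, cnt_pow, h0, hs, cnt_eq_zero.2 hl']
        simp
      have h3 := split_uniq h1 h2 hl
      refine ⟨m * s ^ f * l', r', by simp only [mul_assoc], ?_, hr', ?_⟩
      · rw [← cnt_eq_zero, cnt_mul, cnt_mul, cnt_pow, h0, hs, cnt_eq_zero.2 hl']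
        simp
      · rw [← h3] at hSl
        rw [cnt_mul, cnt_mul, cnt_pow] at hSl ⊢
        have h4 := hS (cnt 0 m + cnt 0 l') (cnt 0 s) (by
          have : cnt 0 m + cnt 0 l' + e * cnt 0 s = cnt 0 m + e * cnt 0 s + cnt 0 l' := by ring
          rw [this]; exact hSl)
        have : cnt 0 m + cnt 0 l' + f * cnt 0 s = cnt 0 m + f * cnt 0 s + cnt 0 l' := by ring
        rw [this] at h4; exact h4
    · have hm : cnt 1 m = 1 := by omega
      obtain ⟨l', r', rfl, hl', hr'⟩ := split_ly hm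
      have h1 : l' * ly * (r' * s ^ e * q) = l * ly * r := by rw [← hlr]; simp only [mul_assoc]
      have h3 := split_uniq h1 hl' hl
      refine ⟨l', r' * s ^ f * q, by simp only [mul_assoc], hl', ?_, h3 ▸ hSl⟩
      rw [← cnt_eq_zero, cnt_mul, cnt_mul, cnt_pow, hs, cnt_eq_zero.2 hr']
      rw [cnt_mul, cnt_mul, cnt_ly, if_pos rfl] at hc
      omega
  intro φ m q
  rw [map_pow, map_pow]
  exact ⟨key e f he hf (fun c d => (hS c d).1) m _ q, key f e hf he (fun c d => (hS c d).2) m _ q⟩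

/-- the finite list of words with given contents -/
theorem perm_cases {l : List ℕ} (w : Word) (h : ∀ i, cnt i w = l.count i) :
    FreeMonoid.toList w ∈ l.permutations' := by
  rw [List.mem_permutations', List.perm_iff_count]
  intro i
  exact h i

theorem words21 {w : Word} (h0 : cnt 0 w = 2) (h1 : cnt 1 w = 1) (h2 : ∀ i, i ≠ 0 → i ≠ 1 → cnt i w = 0) :
    w = lx ^ 2 * ly ∨ w = lx * ly * lx ∨ w = ly * lx ^ 2 := by
  have h3 := perm_cases (l := [0, 0, 1]) w (by
    intro i
    by_cases hi : i = 0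
    · subst hi; rw [h0]; rfl
    · by_cases hi1 : i = 1
      · subst hi1; rw [h1]; rfl
      · rw [h2 i hi hi1]
        simp [Ne.symm hi, Ne.symm hi1])
  have h4 : FreeMonoid.toList w = [0, 0, 1] ∨ FreeMonoid.toList w = [0, 1, 0] ∨
      FreeMonoid.toList w = [1, 0, 0] := by
    have : ∀ l ∈ ([0, 0, 1] : List ℕ).permutations', l = [0, 0, 1] ∨ l = [0, 1, 0] ∨ l = [1, 0, 0] := by
      decide
    exact this _ h3
  rcases h4 with h | h | h
  · left; exact FreeMonoid.toList.injective (by rw [h]; rfl)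
  · right; left; exact FreeMonoid.toList.injective (by rw [h]; rfl)
  · right; right; exact FreeMonoid.toList.injective (by rw [h]; rfl)

theorem words11 {w : Word} (h0 : cnt 0 w = 1) (h1 : cnt 1 w = 1) (h2 : ∀ i, i ≠ 0 → i ≠ 1 → cnt i w = 0) :
    w = lx * ly ∨ w = ly * lx := by
  have h3 := perm_cases (l := [0, 1]) w (by
    intro i
    by_cases hi : i = 0
    · subst hi; rw [h0]; rfl
    · by_cases hi1 : i = 1
      · subst hi1; rw [h1]; rfl
      · rw [h2 i hi hi1]
        simp [Ne.symm hi, Ne.symm hi1])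
  have h4 : FreeMonoid.toList w = [0, 1] ∨ FreeMonoid.toList w = [1, 0] := by
    have : ∀ l ∈ ([0, 1] : List ℕ).permutations', l = [0, 1] ∨ l = [1, 0] := by
      decide
    exact this _ h3
  rcases h4 with h | h
  · left; exact FreeMonoid.toList.injective (by rw [h]; rfl)
  · right; exact FreeMonoid.toList.injective (by rw [h]; rfl)

/-- words without nontrivial cubes -/
def CF : Set Word := {w | ∀ p x q : Word, w = p * x ^ 3 * q → x = 1}

theorem fac_CF : Fac CF := by
  intro u v h
  constructor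
  · intro p x q hu
    exact h p x (q * v) (by rw [hu]; simp only [mul_assoc])
  · intro p x q hv
    exact h (u * p) x q (by rw [hv]; simp only [mul_assoc])

/-- words in which every letter occurs at most twice are in `CF` -/
theorem mem_CF {w : Word} (h : ∀ i, cnt i w ≤ 2) : w ∈ CF := by
  intro p x q hw
  apply eq_one_of_cnt
  intro i
  have h1 := h i
  rw [hw, cnt_mul, cnt_mul, cnt_pow] at h1
  omega

/-- factors of `xyx` -/
def I3 : Set Word := {w | ∃ p q, p * w * q = lx * ly * lx}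

theorem fac_I3 : Fac I3 := by
  rintro u v ⟨p, q, h⟩
  exact ⟨⟨p, v * q, by rw [← h]; simp only [mul_assoc]⟩,
    ⟨p * u, q, by rw [← h]; simp only [mul_assoc]⟩⟩

theorem cnt_I3 {w : Word} (h : w ∈ I3) (i : ℕ) : cnt i w ≤ 2 := by
  obtain ⟨p, q, h⟩ := h
  have := congrArg (cnt i) h
  simp only [cnt_mul, cnt_lx, cnt_ly] at this
  split_ifs at this <;> omega

theorem cnt_F2 {w : Word} (h : w ∈ MV4.F2) (i : ℕ) : cnt i w ≤ 1 := by
  rcases h with h | h | h | h
  · rw [h]; simp
  · rw [h]
    show cnt i lx ≤ 1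
    rw [cnt_lx]; split_ifs <;> omega
  · rw [h]
    show cnt i ly ≤ 1
    rw [cnt_ly]; split_ifs <;> omega
  · rw [h]
    show cnt i (lx * ly) ≤ 1
    rw [cnt_mul, cnt_lx, cnt_ly]; split_ifs <;> omega

/-- commuting in `thC3`: words equal up to the order of letters -/
theorem thC3_of_cnt {u v : Word} (h : ∀ i, cnt i u = cnt i v) : thC3.r u v := by
  have key : ∀ u v : Word, (∀ i, cnt i u = cnt i v) → ∀ (φ : Word →* Word) (k : ℕ),
      φ u = lx ^ k → φ v = lx ^ k := by
    intro u v h φ k hu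
    have hperm : (FreeMonoid.toList u).Perm (FreeMonoid.toList v) :=
      List.perm_iff_count.2 h
    -- all letters of u go to powers of x
    have h1 : ∀ i ∈ ct u, ct (φ (of i)) ⊆ {0} := by
      intro i hi
      refine (ct_hom_sup φ u hi).trans ?_
      rw [hu]
      exact (ct_pow_sub lx k).trans (by simp [lx])
    have hct : ct u = ct v := by
      ext i
      rw [← not_iff_not, ← cnt_eq_zero, ← cnt_eq_zero, h i]
    have h2 : ct (φ v) ⊆ {0} := by
      apply ct_hom
      intro i hi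
      exact h1 i (hct ▸ hi)
    rw [pow_of_ct h2]
    congr 1
    -- counts
    have h3 : ∀ w : Word, cnt 0 (φ w) = ((FreeMonoid.toList w).map (fun i => cnt 0 (φ (of i)))).sum := by
      intro w
      induction w using FreeMonoid.inductionOn' with
      | one => simp
      | of_mul b u ih =>
        rw [map_mul, cnt_mul, ih]
        simp [FreeMonoid.toList_mul, FreeMonoid.toList_of]
    rw [h3, ← (hperm.map _).sum_eq, ← h3, hu]
    simp [cnt_lx]
  intro φ w hw
  obtain ⟨k, _, rfl⟩ := mem_I2.1 hw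
  exact ⟨key u v h φ k, key v u (fun i => (h i).symm) φ k⟩

/-- words with at least two occurrences of `x` on both sides, `y` else -/
theorem thD1_two {u v : Word} (hu : ∀ φ : Word →* Word, φ u ∈ MV4.F2 → φ lx = 1)
    (hv : ∀ φ : Word →* Word, φ v ∈ MV4.F2 → φ lx = 1)
    (h : ∀ φ : Word →* Word, φ lx = 1 → φ u = φ v) : thD1.r u v := by
  rw [thD1, iso_iff']
  rintro φ (h1 | h1)
  · exact h φ (hu φ h1)
  · exact h φ (hv φ h1)

theorem one_of_F2 {φ : Word →* Word} {u : Word} (hu : φ u ∈ MV4.F2) (h2 : 2 ≤ cnt 0 u) :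
    φ lx = 1 := by
  apply eq_one_of_cnt
  intro i
  have h1 := cnt_F2 hu i
  have h3 : ∀ w : Word, cnt 0 w * cnt i (φ lx) ≤ cnt i (φ w) := by
    intro w
    induction w using FreeMonoid.inductionOn' with
    | one => simp
    | of_mul b u ih =>
      rw [map_mul, cnt_mul, cnt_mul, cnt_of]
      by_cases hb : b = 0
      · subst hb
        rw [if_pos rfl]
        have : cnt i (φ (of 0)) = cnt i (φ lx) := rfl
        rw [this]; nlinarith
      · rw [if_neg hb]; nlinarith
  have h4 := h3 u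
  rcases Nat.eq_zero_or_pos (cnt i (φ lx)) with h5 | h5
  · exact h5
  · nlinarith

theorem one_of_I3 {φ : Word →* Word} {u : Word} (hu : φ u ∈ I3) (h2 : 3 ≤ cnt 0 u) :
    φ lx = 1 := by
  apply eq_one_of_cnt
  intro i
  have h1 := cnt_I3 hu i
  have h3 : ∀ w : Word, cnt 0 w * cnt i (φ lx) ≤ cnt i (φ w) := by
    intro w
    induction w using FreeMonoid.inductionOn' with
    | one => simp
    | of_mul b u ih =>
      rw [map_mul, cnt_mul, cnt_mul, cnt_of]
      by_cases hb : b = 0
      · subst hb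
        rw [if_pos rfl]
        have : cnt i (φ (of 0)) = cnt i (φ lx) := rfl
        rw [this]; nlinarith
      · rw [if_neg hb]; nlinarith
  have h4 := h3 u
  rcases Nat.eq_zero_or_pos (cnt i (φ lx)) with h5 | h5
  · exact h5
  · nlinarith

theorem thD1_xy {u v : Word} (hu : 2 ≤ cnt 0 u) (hv : 2 ≤ cnt 0 v)
    (h : ∀ φ : Word →* Word, φ lx = 1 → φ u = φ v) : thD1.r u v :=
  thD1_two (fun _ h => one_of_F2 h hu) (fun _ h => one_of_F2 h hv) h

theorem PS_split {S : ℕ → Prop} {l m : Word} (hl : 1 ∉ ct l) (_hm : 1 ∉ ct m)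
    (h : PS S (l * ly * m)) : S (cnt 0 l) := by
  obtain ⟨l', m', h1, hl', _, hS⟩ := h
  rw [split_uniq h1 hl hl']; exact hS

theorem PS_mk {S : ℕ → Prop} {l m : Word} (hl : 1 ∉ ct l) (hm : 1 ∉ ct m)
    (h : S (cnt 0 l)) : PS S (l * ly * m) := ⟨l, m, rfl, hl, hm, h⟩

/-- values of the property on the three words -/
theorem PS_L {S : ℕ → Prop} : PS S (lx ^ 2 * ly) ↔ S 2 := by
  have h1 : (1 : ℕ) ∉ ct (lx ^ 2) := by rw [← cnt_eq_zero]; simp [cnt_lx]
  have h2 : cnt 0 (lx ^ 2) = 2 := by simp [cnt_lx]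
  constructor
  · intro h
    have h3 : PS S (lx ^ 2 * ly * 1) := by rw [mul_one]; exact h
    have := PS_split h1 (by simp) h3
    rwa [h2] at this
  · intro h
    have := PS_mk (S := S) (l := lx ^ 2) (m := 1) h1 (by simp) (by rw [h2]; exact h)
    rwa [mul_one] at this

theorem PS_M {S : ℕ → Prop} : PS S (lx * ly * lx) ↔ S 1 := by
  have h1 : (1 : ℕ) ∉ ct lx := by rw [← cnt_eq_zero]; simp [cnt_lx]
  have h2 : cnt 0 lx = 1 := by simp [cnt_lx]
  constructor
  · intro h
    have := PS_split h1 h1 h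
    rwa [h2] at this
  · intro h
    exact PS_mk h1 h1 (by rw [h2]; exact h)

theorem PS_R {S : ℕ → Prop} : PS S (ly * lx ^ 2) ↔ S 0 := by
  have h1 : (1 : ℕ) ∉ ct (lx ^ 2) := by rw [← cnt_eq_zero]; simp [cnt_lx]
  constructor
  · intro h
    have h3 : PS S (1 * ly * lx ^ 2) := by rw [one_mul]; exact h
    have := PS_split (by simp) h1 h3
    simpa using this
  · intro h
    have := PS_mk (S := S) (l := 1) (m := lx ^ 2) (by simp) h1 (by simpa using h)
    rwa [one_mul] at this

theorem PS_xy {S : ℕ → Prop} : PS S (lx * ly) ↔ S 1 := by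
  have h1 : (1 : ℕ) ∉ ct lx := by rw [← cnt_eq_zero]; simp [cnt_lx]
  have h2 : cnt 0 lx = 1 := by simp [cnt_lx]
  constructor
  · intro h
    have h3 : PS S (lx * ly * 1) := by rw [mul_one]; exact h
    have := PS_split h1 (by simp) h3
    rwa [h2] at this
  · intro h
    have := PS_mk (S := S) (l := lx) (m := 1) h1 (by simp) (by rw [h2]; exact h)
    rwa [mul_one] at this

theorem PS_yx {S : ℕ → Prop} : PS S (ly * lx) ↔ S 0 := by
  have h1 : (1 : ℕ) ∉ ct lx := by rw [← cnt_eq_zero]; simp [cnt_lx]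
  constructor
  · intro h
    have h3 : PS S (1 * ly * lx) := by rw [one_mul]; exact h
    have := PS_split (by simp) h1 h3
    simpa using this
  · intro h
    have := PS_mk (S := S) (l := 1) (m := lx) (by simp) h1 (by simpa using h)
    rwa [one_mul] at this

theorem gam_self {P : Word → Prop} {u v : Word} (h : (gam P).r u v) : P u ↔ P v := by
  have := h (MonoidHom.id Word) 1 1
  simpa using this

/-- words equivalent to a word with two `x` and one `y` -/
theorem cases21 {u w : Word} (hu : thC3.r u w) (h0 : cnt 0 u = 2) (h1 : cnt 1 u = 1)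
    (h2 : ∀ i, i ≠ 0 → i ≠ 1 → cnt i u = 0) :
    w = lx ^ 2 * ly ∨ w = lx * ly * lx ∨ w = ly * lx ^ 2 := by
  apply words21
  · rw [cnt_thC3 hu (by omega), h0]
  · rw [cnt_thC3 hu (by omega), h1]
  · intro i hi0 hi1
    rw [cnt_thC3 hu (by rw [h2 i hi0 hi1]; omega), h2 i hi0 hi1]

theorem cases11 {u w : Word} (hu : thC3.r u w) (h0 : cnt 0 u = 1) (h1 : cnt 1 u = 1)
    (h2 : ∀ i, i ≠ 0 → i ≠ 1 → cnt i u = 0) :
    w = lx * ly ∨ w = ly * lx := by
  apply words11
  · rw [cnt_thC3 hu (by omega), h0]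
  · rw [cnt_thC3 hu (by omega), h1]
  · intro i hi0 hi1
    rw [cnt_thC3 hu (by rw [h2 i hi0 hi1]; omega), h2 i hi0 hi1]

theorem cnt_lx_other {i : ℕ} (h : i ≠ 0) : cnt i lx = 0 := by rw [cnt_lx, if_neg (Ne.symm h)]
theorem cnt_ly_other {i : ℕ} (h : i ≠ 1) : cnt i ly = 0 := by rw [cnt_ly, if_neg (Ne.symm h)]

/-- words of `F2` are isoterms as soon as `xy` is one -/
theorem le_thD1 {ρ : FIC} (h3 : ρ ≤ thC3) (hxy : ¬ ρ.r (lx * ly) (ly * lx)) : ρ ≤ thD1 := by
  rw [thD1, le_iso_iff]
  intro w hw v hv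
  have hv3 := h3 _ _ hv
  have hc : ∀ i, cnt i v = cnt i w := fun i => cnt_thC3 hv3 ((cnt_F2 hw i).trans (by norm_num))
  rcases hw with rfl | rfl | rfl | rfl
  · exact eq_one_of_cnt (fun i => by rw [hc i]; rfl)
  · have h1 : ct v ⊆ {0} := by
      intro i hi
      by_contra h4
      have h5 : cnt i v ≠ 0 := fun h => (cnt_eq_zero.1 h) hi
      apply h5
      rw [hc i]
      exact cnt_lx_other (by simpa using h4)
    rw [pow_of_ct h1, hc 0]
    rfl
  · have h1 : ct v ⊆ {1} := by
      intro i hi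
      by_contra h4
      have h5 : cnt i v ≠ 0 := fun h => (cnt_eq_zero.1 h) hi
      apply h5
      rw [hc i]
      exact cnt_ly_other (by simpa using h4)
    have h2 : FreeMonoid.toList v = List.replicate 1 1 := by
      rw [List.eq_replicate_iff]
      refine ⟨?_, ?_⟩
      · have h6 : ∀ l : List ℕ, (∀ i ∈ l, i = 1) → l.length = l.count 1 := by
          intro l hl
          have : l = List.replicate l.length 1 := List.eq_replicate_iff.2 ⟨rfl, hl⟩
          conv_rhs => rw [this]
          rw [List.count_replicate_self]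
        rw [h6 _ (fun i hi => by
          have : i ∈ ct v := by rw [ct, List.mem_toFinset]; exact hi
          simpa using h1 this)]
        have := hc 1
        rw [cnt] at this
        rw [this]; rfl
      · intro i hi
        have : i ∈ ct v := by rw [ct, List.mem_toFinset]; exact hi
        simpa using h1 this
    exact FreeMonoid.toList.injective h2
  · have h4 := words11 (w := v) (by rw [hc 0]; rfl) (by rw [hc 1]; rfl) (by
      intro i h0 h1
      rw [hc i]
      show cnt i (lx * ly) = 0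
      rw [cnt_mul, cnt_lx_other h0, cnt_ly_other h1])
    rcases h4 with h4 | h4
    · exact h4
    · subst h4
      exact absurd hv hxy

/-- replacing a factor without `y` -/
theorem PS_repl {S : ℕ → Prop} {m s s' q : Word} (hs : cnt 1 s = 0) (hs' : cnt 1 s' = 0)
    (hS : ∀ c, S (c + cnt 0 s) → S (c + cnt 0 s')) (h : PS S (m * s * q)) :
    PS S (m * s' * q) := by
  obtain ⟨l, r, hlr, hl, hr, hSl⟩ := h
  have hc := congrArg (cnt 1) hlr
  rw [cnt_mul, cnt_mul, cnt_mul, cnt_mul, cnt_eq_zero.2 hl, cnt_eq_zero.2 hr, cnt_ly,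
    if_pos rfl, hs] at hc
  rcases Nat.eq_zero_or_pos (cnt 1 m) with h0 | h0
  · have hq : cnt 1 q = 1 := by omega
    obtain ⟨l', r', rfl, hl', hr'⟩ := split_ly hq
    have h1 : m * s * l' * ly * r' = l * ly * r := by rw [← hlr]; simp only [mul_assoc]
    have h2 : 1 ∉ ct (m * s * l') := by
      rw [← cnt_eq_zero, cnt_mul, cnt_mul, h0, hs, cnt_eq_zero.2 hl']
    have h3 := split_uniq h1 h2 hl
    refine ⟨m * s' * l', r', by simp only [mul_assoc], ?_, hr', ?_⟩
    · rw [← cnt_eq_zero, cnt_mul, cnt_mul, h0, hs', cnt_eq_zero.2 hl']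
    · rw [← h3] at hSl
      rw [cnt_mul, cnt_mul] at hSl ⊢
      have h4 := hS (cnt 0 m + cnt 0 l') (by
        have : cnt 0 m + cnt 0 l' + cnt 0 s = cnt 0 m + cnt 0 s + cnt 0 l' := by ring
        rw [this]; exact hSl)
      have : cnt 0 m + cnt 0 l' + cnt 0 s' = cnt 0 m + cnt 0 s' + cnt 0 l' := by ring
      rw [this] at h4; exact h4
  · have hm : cnt 1 m = 1 := by omega
    obtain ⟨l', r', rfl, hl', hr'⟩ := split_ly hm
    have h1 : l' * ly * (r' * s * q) = l * ly * r := by rw [← hlr]; simp only [mul_assoc]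
    have h3 := split_uniq h1 hl' hl
    refine ⟨l', r' * s' * q, by simp only [mul_assoc], hl', ?_, h3 ▸ hSl⟩
    rw [← cnt_eq_zero, cnt_mul, cnt_mul, hs', cnt_eq_zero.2 hr']
    omega

theorem PS_cnt {S : ℕ → Prop} {w : Word} (h : PS S w) : cnt 1 w = 1 := by
  obtain ⟨l, m, rfl, hl, hm, _⟩ := h
  rw [cnt_mul, cnt_mul, cnt_eq_zero.2 hl, cnt_eq_zero.2 hm, cnt_ly, if_pos rfl]

/-- `E` is not contained in a variety with modular lattice which contains `C_3` and `D_1` -/
theorem partE {β : FIC} (h : ModF β) (h3 : β ≤ thC3) (hd : β ≤ thD1) :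
    ¬ β ≤ gam (PS (fun i => 1 ≤ i)) := by
  intro hE
  set S : ℕ → Prop := fun i => 1 ≤ i with hS
  set ρ0 := FIC.inf thC3 (gam (PS S)) with hρ0
  set B := iso CF fac_CF with hB
  have hρ0xy : ¬ ρ0.r (lx * ly) (ly * lx) := by
    intro hh
    have := (gam_self hh.2).1 (PS_xy.2 (by simp [hS]))
    rw [PS_yx] at this
    simp [hS] at this
  have hρ0d : ρ0 ≤ thD1 := le_thD1 (FIC.inf_le_left _ _) hρ0xy
  have hB3 : B ≤ thC3 := by
    rw [thC3, le_iso_iff]
    intro w hw
    apply iso_isoterm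
    obtain ⟨k, hk, rfl⟩ := mem_I2.1 hw
    apply mem_CF
    intro i
    rw [cnt_pow, cnt_lx]
    split_ifs <;> omega
  have hBd : B ≤ thD1 := by
    rw [thD1, le_iso_iff]
    intro w hw
    apply iso_isoterm
    apply mem_CF
    intro i
    exact (cnt_F2 hw i).trans (by norm_num)
  have key := h (FIC.sup ρ0 B) (gam (PS S)) (FIC.inf thC3 thD1)
    (FIC.le_trans' (FIC.le_inf h3 hE) (FIC.le_sup_left _ _)) hE (FIC.le_inf h3 hd)
    (FIC.sup_le (FIC.le_inf (FIC.inf_le_left _ _) hρ0d) (FIC.le_inf hB3 hBd))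
    (lx ^ 2 * ly) (ly * lx ^ 2) ?_ ?_
  · -- contradiction
    have hK : ∀ w, (FIC.sup (FIC.sup ρ0 B) (FIC.inf (gam (PS S)) (FIC.inf thC3 thD1))).r
        (lx ^ 2 * ly) w → w = lx ^ 2 * ly ∨ w = lx * ly * lx := by
      have hcnt : ∀ u, (u = lx ^ 2 * ly ∨ u = lx * ly * lx) → cnt 0 u = 2 ∧ cnt 1 u = 1 ∧
          (∀ i, i ≠ 0 → i ≠ 1 → cnt i u = 0) ∧ PS S u := by
        rintro u (rfl | rfl)
        · refine ⟨by simp [cnt_lx, cnt_ly], by simp [cnt_lx, cnt_ly], ?_, PS_L.2 (by simp [hS])⟩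
          intro i h0 h1
          simp [cnt_lx_other h0, cnt_ly_other h1]
        · refine ⟨by simp [cnt_lx, cnt_ly], by simp [cnt_lx, cnt_ly], ?_, PS_M.2 (by simp [hS])⟩
          intro i h0 h1
          simp [cnt_lx_other h0, cnt_ly_other h1]
      have s1 : ∀ u w, (u = lx ^ 2 * ly ∨ u = lx * ly * lx) → thC3.r u w → (gam (PS S)).r u w →
          (w = lx ^ 2 * ly ∨ w = lx * ly * lx) := by
        intro u w hu h1 h2
        obtain ⟨c0, c1, c2, c3⟩ := hcnt u hu
        rcases cases21 h1 c0 c1 c2 with h4 | h4 | h4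
        · exact Or.inl h4
        · exact Or.inr h4
        · subst h4
          have := (gam_self h2).1 c3
          rw [PS_R] at this
          simp [hS] at this
      have s2 : ∀ u w, (u = lx ^ 2 * ly ∨ u = lx * ly * lx) → B.r u w →
          (w = lx ^ 2 * ly ∨ w = lx * ly * lx) := by
        intro u w hu h1
        obtain ⟨c0, c1, c2, _⟩ := hcnt u hu
        have hmem : u ∈ CF := by
          apply mem_CF
          intro i
          by_cases h0 : i = 0
          · subst h0; omega
          · by_cases h1 : i = 1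
            · subst h1; omega
            · rw [c2 i h0 h1]; omega
        rw [iso_isoterm hmem w h1]
        exact hu
      intro w hw
      induction hw with
      | refl => exact Or.inl rfl
      | tail _ h4 ih =>
        rename_i y z _
        rcases h4 with h4 | h4
        · clear key
          -- chain for the inner join
          have : ∀ z, (FIC.sup ρ0 B).r y z → (z = lx ^ 2 * ly ∨ z = lx * ly * lx) := by
            intro z hz
            induction hz with
            | refl => exact ih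
            | tail _ h5 ih2 =>
              rcases h5 with h5 | h5
              · exact s1 _ _ ih2 h5.1 h5.2
              · exact s2 _ _ ih2 h5
          exact this z h4
        · exact s1 _ _ ih h4.2.1 h4.1
    rcases hK _ key with h4 | h4
    · have := congrArg FreeMonoid.toList h4
      revert this
      decide
    · have := congrArg FreeMonoid.toList h4
      revert this
      decide
  · -- in the join
    have hg : (gam (PS S)).r (lx ^ 2) (lx ^ 3) := by
      apply gam_pow (by norm_num) (by norm_num)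
      intro c d
      simp only [hS]
      constructor <;> intro h <;> omega
    have e1 : (FIC.sup (FIC.sup ρ0 B) (gam (PS S))).r (lx ^ 2 * ly) (lx ^ 3 * ly) :=
      FIC.le_sup_right _ _ _ _ (FIC.mulR ly hg)
    have e2 : (FIC.sup (FIC.sup ρ0 B) (gam (PS S))).r (lx ^ 3 * ly) (ly * lx ^ 3) := by
      apply FIC.le_sup_left
      apply FIC.le_sup_right
      rw [hB, iso_iff']
      have : ∀ φ : Word →* Word, φ (lx ^ 3 * ly) ∈ CF → φ lx = 1 := by
        intro φ hφ
        rw [map_mul, map_pow] at hφ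
        exact hφ 1 (φ lx) (φ ly) (by rw [one_mul])
      have h' : ∀ φ : Word →* Word, φ (ly * lx ^ 3) ∈ CF → φ lx = 1 := by
        intro φ hφ
        rw [map_mul, map_pow] at hφ
        exact hφ (φ ly) (φ lx) 1 (by rw [mul_one])
      rintro φ (h1 | h1)
      · rw [map_mul, map_mul, map_pow, this φ h1]; simp
      · rw [map_mul, map_mul, map_pow, h' φ h1]; simp
    have e3 : (FIC.sup (FIC.sup ρ0 B) (gam (PS S))).r (ly * lx ^ 3) (ly * lx ^ 2) :=
      FIC.le_sup_right _ _ _ _ (FIC.mulL ly ((gam (PS S)).symm hg))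
    exact FIC.trans _ e1 (FIC.trans _ e2 e3)
  · refine ⟨thC3_of_cnt (fun i => by simp [add_comm]), ?_⟩
    apply thD1_xy
    · simp [cnt_lx, cnt_ly]
    · simp [cnt_lx, cnt_ly]
    · intro φ hφ
      rw [map_mul, map_mul, map_pow, hφ]; simp

/-- the variety `Q_p` -/
theorem partQ {β : FIC} (h : ModF β) (h3 : β ≤ thC3) (hd : β ≤ thD1) {p : ℕ} (hp : 2 ≤ p) :
    ¬ β ≤ gam (PS (fun i => i ≡ 1 [MOD p])) := by
  intro hE
  set S : ℕ → Prop := fun i => i ≡ 1 [MOD p] with hS
  have hS1 : S 1 := Nat.ModEq.refl 1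
  have hS0 : ¬ S 0 := by
    intro h
    have := (Nat.modEq_iff_dvd' (by norm_num : 0 ≤ 1)).1 h
    have := Nat.le_of_dvd (by norm_num) this
    omega
  have hS2 : ¬ S 2 := by
    intro h
    have := (Nat.modEq_iff_dvd' (by norm_num : 1 ≤ 2)).1 h.symm
    have := Nat.le_of_dvd (by norm_num) this
    omega
  -- the class of xyx
  have hxyx : ∀ ρ : FIC, ρ ≤ thC3 → ρ ≤ gam (PS S) → ∀ w, ρ.r (lx * ly * lx) w → w = lx * ly * lx := by
    intro ρ h1 h2 w hw
    rcases cases21 (h1 _ _ hw) (by simp [cnt_lx, cnt_ly]) (by simp [cnt_lx, cnt_ly])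
      (by intro i h0 h1; simp [cnt_lx_other h0, cnt_ly_other h1]) with h4 | h4 | h4
    · subst h4
      exact absurd (PS_L.1 ((gam_self (h2 _ _ hw)).1 (PS_M.2 hS1))) hS2
    · exact h4
    · subst h4
      exact absurd (PS_R.1 ((gam_self (h2 _ _ hw)).1 (PS_M.2 hS1))) hS0
  have hβ3 : β ≤ iso I3 fac_I3 := by
    rw [le_iso_iff]
    rintro w ⟨m, q, hmq⟩ v hv
    have h1 : β.r (m * w * q) (m * v * q) := β.mul (β.mul (β.refl m) hv) (β.refl q)
    rw [hmq] at h1
    have h2 := hxyx β h3 hE _ h1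
    rw [← hmq] at h2
    have h5 := mul_right_cancel h2
    exact mul_left_cancel h5
  have h3d : iso I3 fac_I3 ≤ thD1 := by
    rw [thD1, le_iso_iff]
    intro w hw
    apply iso_isoterm
    rcases hw with rfl | rfl | rfl | rfl
    · exact ⟨1, lx * ly * lx, by simp⟩
    · exact ⟨1, ly * lx, rfl⟩
    · exact ⟨lx, lx, rfl⟩
    · exact ⟨1, lx, rfl⟩
  have key := h (FIC.inf thC3 (iso I3 fac_I3)) (gam (PS S)) (FIC.inf thC3 thD1)
    (FIC.le_inf h3 hβ3) hE (FIC.le_inf h3 hd)
    (FIC.le_inf (FIC.inf_le_left _ _) (FIC.le_trans' (FIC.inf_le_right _ _) h3d))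
    (lx * ly * lx) (lx ^ 2 * ly) ?_ ?_
  · have hK : ∀ w, (FIC.sup (FIC.inf thC3 (iso I3 fac_I3))
        (FIC.inf (gam (PS S)) (FIC.inf thC3 thD1))).r (lx * ly * lx) w → w = lx * ly * lx := by
      intro w hw
      induction hw with
      | refl => rfl
      | tail _ h4 ih =>
        subst ih
        rcases h4 with h4 | h4
        · have hmem : lx * ly * lx ∈ I3 := ⟨1, 1, by simp⟩
          exact iso_isoterm hmem _ h4.2
        · rename_i z _
          exact hxyx (FIC.inf thC3 (gam (PS S))) (FIC.inf_le_left _ _) (FIC.inf_le_right _ _) z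
            ⟨h4.2.1, h4.1⟩
    have := congrArg FreeMonoid.toList (hK _ key)
    revert this
    decide
  · have hmod : ∀ c d : ℕ, S (c + 2 * d) ↔ S (c + (p + 2) * d) := by
      intro c d
      have h1 : c + (p + 2) * d = c + 2 * d + p * d := by ring
      rw [h1]
      have h2 : c + 2 * d + p * d ≡ c + 2 * d [MOD p] := by
        have := (Nat.modEq_zero_iff_dvd.2 (dvd_mul_right p d)).add_left (c + 2 * d)
        simpa using this
      exact ⟨fun h => h2.trans h, fun h => h2.symm.trans h⟩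
    have hg : (gam (PS S)).r (lx ^ 2) (lx ^ (p + 2)) := gam_pow (by norm_num) (by omega) hmod
    -- xyx ~ x^(p+1) y x
    have hg2 : (gam (PS S)).r (lx * ly * lx) (lx ^ (p + 1) * ly * lx) := by
      have hmod1 : ∀ c d : ℕ, S (c + d) ↔ S (c + (p + 1) * d) := by
        intro c d
        have h1 : c + (p + 1) * d = c + d + p * d := by ring
        rw [h1]
        have h2 : c + d + p * d ≡ c + d [MOD p] := by
          have := (Nat.modEq_zero_iff_dvd.2 (dvd_mul_right p d)).add_left (c + d)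
          simpa using this
        exact ⟨fun h => h2.trans h, fun h => h2.symm.trans h⟩
      intro φ m q
      rw [map_mul, map_mul, map_mul, map_mul, map_pow]
      generalize φ lx = s
      generalize φ ly = t
      constructor
      · intro hP
        have hc := PS_cnt hP
        rw [cnt_mul, cnt_mul, cnt_mul, cnt_mul] at hc
        have hs : cnt 1 s = 0 := by omega
        have e1 : m * (s * t * s) * q = m * s * (t * s * q) := by simp only [mul_assoc]
        have e2 : m * (s ^ (p + 1) * t * s) * q = m * s ^ (p + 1) * (t * s * q) := by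
          simp only [mul_assoc]
        rw [e1] at hP
        rw [e2]
        refine PS_repl hs (by rw [cnt_pow, hs, mul_zero]) ?_ hP
        intro c hc
        rw [cnt_pow]
        exact (hmod1 c _).1 hc
      · intro hP
        have hc := PS_cnt hP
        rw [cnt_mul, cnt_mul, cnt_mul, cnt_mul, cnt_pow] at hc
        have hs : cnt 1 s = 0 := by
          rcases Nat.eq_zero_or_pos (cnt 1 s) with h | h
          · exact h
          · exfalso; nlinarith
        have e1 : m * (s * t * s) * q = m * s * (t * s * q) := by simp only [mul_assoc]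
        have e2 : m * (s ^ (p + 1) * t * s) * q = m * s ^ (p + 1) * (t * s * q) := by
          simp only [mul_assoc]
        rw [e2] at hP
        rw [e1]
        refine PS_repl (by rw [cnt_pow, hs, mul_zero]) hs ?_ hP
        intro c hc
        rw [cnt_pow] at hc
        exact (hmod1 c _).2 hc
    have e2 : (FIC.inf thC3 (iso I3 fac_I3)).r (lx ^ (p + 1) * ly * lx) (lx ^ (p + 2) * ly) := by
      refine ⟨thC3_of_cnt (fun i => by simp; ring), ?_⟩
      rw [iso_iff']
      rintro φ (h1 | h1)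
      · have := one_of_I3 h1 (by simp [cnt_lx, cnt_ly]; omega)
        simp [this]
      · have := one_of_I3 h1 (by simp [cnt_lx, cnt_ly]; omega)
        simp [this]
    have e3 : (gam (PS S)).r (lx ^ (p + 2) * ly) (lx ^ 2 * ly) :=
      FIC.mulR ly ((gam (PS S)).symm hg)
    exact FIC.trans _ (FIC.le_sup_right _ _ _ _ hg2)
      (FIC.trans _ (FIC.le_sup_left _ _ _ _ e2) (FIC.le_sup_right _ _ _ _ e3))
  · refine ⟨thC3_of_cnt (fun i => by simp; ring), ?_⟩
    apply thD1_xy
    · simp [cnt_lx, cnt_ly]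
    · simp [cnt_lx, cnt_ly]
    · intro φ hφ
      simp [hφ]

theorem op_modF {β : FIC} (h : ModF β) : ModF (FIC.op β) := by
  intro ρ σ τ hρ hσ hτ hle u v h1 h2
  have e : ∀ ρ : FIC, FIC.op β ≤ ρ → β ≤ FIC.op ρ := by
    intro ρ hρ a b hab
    apply hρ
    show β.r _ _
    rw [FreeMonoid.reverse_reverse, FreeMonoid.reverse_reverse]
    exact hab
  have h3 := h (FIC.op ρ) (FIC.op σ) (FIC.op τ) (e ρ hρ) (e σ hσ) (e τ hτ) (FIC.op_mono hle)
    u.reverse v.reverse (FIC.sup_op h1) (by
      show τ.r _ _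
      rw [FreeMonoid.reverse_reverse, FreeMonoid.reverse_reverse]; exact h2)
  have h4 := FIC.sup_op h3
  have h5 : FIC.sup (FIC.op (FIC.op ρ)) (FIC.op (FIC.inf (FIC.op σ) (FIC.op τ))) ≤
      FIC.sup ρ (FIC.inf σ τ) := by
    apply FIC.sup_le
    · intro a b hab
      apply FIC.le_sup_left
      have : ρ.r a.reverse.reverse b.reverse.reverse := hab
      rwa [FreeMonoid.reverse_reverse, FreeMonoid.reverse_reverse] at this
    · intro a b hab
      apply FIC.le_sup_right
      have h6 : σ.r a.reverse.reverse b.reverse.reverse ∧ τ.r a.reverse.reverse b.reverse.reverse :=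
        hab
      rwa [FreeMonoid.reverse_reverse, FreeMonoid.reverse_reverse] at h6
  have h7 := h5 _ _ h4
  rwa [FreeMonoid.reverse_reverse, FreeMonoid.reverse_reverse] at h7

theorem rev_lx : lx.reverse = lx := rfl
theorem rev_ly : ly.reverse = ly := rfl

/-- an identity in two letters holds in the quotient monoid -/
theorem quot_id {β : FIC} {i j i' j' : ℕ}
    (h : β.r (lx ^ i * ly * lx ^ j) (lx ^ i' * ly * lx ^ j')) (x t : β.con.Quotient) :
    x ^ i * t * x ^ j = x ^ i' * t * x ^ j' := by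
  have h1 := quot_sat β h (FreeMonoid.lift (fun k => if k = 0 then x else t))
  simpa [lx, ly, FreeMonoid.lift_eval_of] using h1

/-- **(B2)** If `x ^ 2` is an isoterm and the lattice is modular then all large powers are
central. -/
theorem B2 {β : FIC} (h : ModF β) (h2 : ∀ w, β.r (lx ^ 2) w → w = lx ^ 2) :
    ∃ k, 1 ≤ k ∧ ∀ m, k ≤ m → β.r (lx ^ m * ly) (ly * lx ^ m) := by
  have h3 : β ≤ thC3 := le_thC3 h2
  by_cases hxy : β.r (lx * ly) (ly * lx)
  · refine ⟨1, le_refl 1, fun m _ => ?_⟩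
    have := β.sub (FreeMonoid.lift (fun k => if k = 0 then lx ^ m else ly)) hxy
    simpa [lx, ly, FreeMonoid.lift_eval_of] using this
  have hd : β ≤ thD1 := le_thD1 h3 hxy
  -- the dual
  have h2o : ∀ w, (FIC.op β).r (lx ^ 2) w → w = lx ^ 2 := by
    intro w hw
    have h4 : β.r (lx ^ 2).reverse w.reverse := hw
    rw [FIC.reverse_pow, rev_lx] at h4
    have h5 := h2 _ h4
    have h6 := congrArg FreeMonoid.reverse h5
    rwa [FreeMonoid.reverse_reverse, FIC.reverse_pow, rev_lx] at h6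
  have h3o : FIC.op β ≤ thC3 := le_thC3 h2o
  have hxyo : ¬ (FIC.op β).r (lx * ly) (ly * lx) := by
    intro h4
    have h5 : β.r (lx * ly).reverse (ly * lx).reverse := h4
    rw [FreeMonoid.reverse_mul, FreeMonoid.reverse_mul, rev_lx, rev_ly] at h5
    exact hxy (β.symm h5)
  have hdo : FIC.op β ≤ thD1 := le_thD1 h3o hxyo
  obtain ⟨i, j, i0, k, hid1, hi, hi0⟩ := extract h3 (partE h h3 hd)
  obtain ⟨i', j', i0', k', hid2, hi', hi0'⟩ := extract h3o (partE (op_modF h) h3o hdo)
  simp only [not_le, Nat.lt_one_iff] at hi0 hi0'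
  subst hi0
  subst hi0'
  have hid2' : β.r (lx ^ j' * ly * lx ^ i') (lx ^ k' * ly * lx ^ 0) := by
    have h5 : β.r (lx ^ i' * ly * lx ^ j').reverse (lx ^ 0 * ly * lx ^ k').reverse := hid2
    rw [FreeMonoid.reverse_mul, FreeMonoid.reverse_mul, FreeMonoid.reverse_mul,
      FreeMonoid.reverse_mul, FIC.reverse_pow, FIC.reverse_pow, FIC.reverse_pow,
      FIC.reverse_pow, rev_lx, rev_ly, ← mul_assoc, ← mul_assoc] at h5
    exact h5
  obtain ⟨w, hw, hcen⟩ := central_all (M := β.con.Quotient) hi hi'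
    (fun x t => by
      have := quot_id hid1 x t
      rwa [pow_zero, one_mul] at this)
    (fun x t => by
      have := quot_id hid2' x t
      rwa [pow_zero, mul_one] at this)
    (fun p hp => by
      obtain ⟨a, b, c, d, hid, hS, hnS⟩ := extract h3 (partQ h h3 hd hp.two_le)
      exact ⟨a, b, c, d, quot_id hid, fun hac => hnS (hac.symm.trans hS)⟩)
  refine ⟨w, hw, fun m hm => ?_⟩
  have h5 := hcen m hm (β.con.mk' lx) (β.con.mk' ly)
  rw [← map_pow, ← map_mul, ← map_mul] at h5
  exact (Con.eq β.con).1 h5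

end Pool.Agent.Helper14_MV
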