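import Pool.Agent.Helper14_MV.Words

/-!
The lattice of subvarieties of a completely regular monoid variety is modular.
-/

namespace Pool.Agent.Helper14_MV

open FreeMonoid (of)

namespace FIC

variable {ρ σ τ : FIC}

/-- `ρ` preserves contents -/
def Cont (ρ : FIC) : Prop := ∀ a b, ρ.r a b → ct a = ct b

/-- words with the same content are `R`-equivalent -/
def Full (ρ : FIC) : Prop := ∀ a b, ct a = ct b → eqR ρ a b

/-- the last new letter is determined by the `R`-class -/
def Ord (ρ : FIC) : Prop := ∀ (p q : Word) (a b : ℕ), a ∉ ct p → b ∉ ct q →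
  insert a (ct p) = insert b (ct q) → leR ρ (p * of a) (q * of b) → a = b

/-- group congruence with exponent `n` -/
def Grp (n : ℕ) (ρ : FIC) : Prop := ∀ w, ρ.r (w ^ n) 1

theorem CR.pow_mul {n : ℕ} (h : CR n ρ) (w : Word) {k : ℕ} (hk : 1 ≤ k) :
    ρ.r (w ^ (n * k)) (w ^ n) := by
  obtain ⟨m, rfl⟩ : ∃ m, k = m + 1 := ⟨k - 1, by omega⟩
  clear hk
  induction m with
  | zero => simpa using ρ.refl _
  | succ m ih =>
    obtain ⟨l, hl⟩ : ∃ l, n = l + 1 := ⟨n - 1, by have := h.1; omega⟩
    have h1 : w ^ (n * (m + 1 + 1)) = w ^ (n * (m + 1)) * w ^ n := by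
      rw [← pow_add]; congr 1
    rw [h1]
    have h2 : ρ.r (w ^ n * w ^ n) (w ^ n) := by
      have h3 : w ^ n * w ^ n = w ^ (n + 1) * w ^ l := by
        rw [← pow_add, ← pow_add]; congr 1; omega
      have h4 : w ^ n = w * w ^ l := by rw [hl, pow_succ']
      rw [h3]
      exact ρ.trans (mulR _ (h.2 w)) (of_eq h4.symm)
    exact ρ.trans (mulR _ ih) h2

theorem CR.idem {n : ℕ} (h : CR n ρ) (w : Word) : ρ.r (w ^ n * w ^ n) (w ^ n) := by
  have := h.pow_mul w (k := 2) (by norm_num)
  rwa [mul_two, pow_add] at this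

theorem grp_of_not_cont {n : ℕ} (h : CR n ρ) (hc : ¬ Cont ρ) : Grp n ρ := by
  have key : ∀ u v : Word, ρ.r u v → ∀ x, x ∈ ct u → x ∉ ct v → Grp n ρ := by
    intro u v huv x hxu hxv w
    let φ : Word →* Word := FreeMonoid.lift (fun i => if i = x then w else 1)
    have h1 : φ (of x) = w := by simp [φ, FreeMonoid.lift_eval_of]
    have h2 : ∀ i, i ≠ x → φ (of i) = 1 := by
      intro i hi
      simp [φ, FreeMonoid.lift_eval_of, hi]
    obtain ⟨k, hk, hk1, _⟩ := one_letter x w φ h1 h2 u
    obtain ⟨l, hl, _, hl2⟩ := one_letter x w φ h1 h2 v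
    have h3 := ρ.sub φ huv
    rw [hk, hl, hl2 hxv, pow_zero] at h3
    have h4 := FIC.pow h3 n
    rw [← pow_mul, one_pow, mul_comm] at h4
    exact ρ.trans (ρ.symm (h.pow_mul w (hk1 hxu))) h4
  by_contra hg
  apply hc
  intro u v huv
  apply Finset.Subset.antisymm
  · intro x hx
    by_contra hx'
    exact hg (key u v huv x hx hx')
  · intro x hx
    by_contra hx'
    exact hg (key v u (ρ.symm huv) x hx hx')

theorem Grp.mono {n : ℕ} (h : Grp n ρ) (k : ρ ≤ σ) : Grp n σ := fun w => k _ _ (h w)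

theorem Grp.leR {n : ℕ} (hn : 1 ≤ n) (h : Grp n ρ) (a b : Word) : leR ρ a b := by
  obtain ⟨l, hl⟩ : ∃ l, n = l + 1 := ⟨n - 1, by omega⟩
  refine ⟨b ^ l * a, ?_⟩
  have h1 : ρ.r (b ^ n * a) (1 * a) := mulR a (h b)
  rw [one_mul, hl, pow_succ', mul_assoc] at h1
  exact ρ.symm h1

theorem full_of_not_ord {n : ℕ} (h : CR n ρ) (ho : ¬ Ord ρ) : Full ρ := by
  unfold Ord at ho
  push_neg at ho
  obtain ⟨p, q, a, b, ha, hb, hab, ⟨s, hs⟩, hne⟩ := ho
  have hbp : b ∈ ct p := by
    have : b ∈ insert a (ct p) := by rw [hab]; exact Finset.mem_insert_self _ _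
    rcases Finset.mem_insert.1 this with h | h
    · exact absurd h.symm hne
    · exact h
  have haq : a ∈ ct q := by
    have : a ∈ insert b (ct q) := by rw [← hab]; exact Finset.mem_insert_self _ _
    rcases Finset.mem_insert.1 this with h | h
    · exact absurd h hne
    · exact h
  -- both words are equivalent
  have key : ∀ x y : Word, ct x = ct y → leR ρ y x := by
    intro x y hxy
    let φ : Word →* Word := FreeMonoid.lift (fun i => if i = a then x else if i = b then y else 1)
    have hφa : φ (of a) = x := by simp [φ, FreeMonoid.lift_eval_of]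
    have hφb : φ (of b) = y := by simp [φ, FreeMonoid.lift_eval_of, Ne.symm hne]
    have hφo : ∀ i, i ≠ a → i ≠ b → φ (of i) = 1 := by
      intro i h1 h2
      simp [φ, FreeMonoid.lift_eval_of, h1, h2]
    -- φ p is a power of y
    let ψ : Word →* Word := FreeMonoid.lift (fun i => if i = b then y else 1)
    have hp1 : φ p = ψ p := by
      apply hom_congr
      intro i hi
      have hia : i ≠ a := fun h => ha (h ▸ hi)
      by_cases hib : i = b
      · subst hib; rw [hφb]; simp [ψ, FreeMonoid.lift_eval_of]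
      · rw [hφo i hia hib]; simp [ψ, FreeMonoid.lift_eval_of, hib]
    obtain ⟨i, hi, hi1, _⟩ := one_letter b y ψ (by simp [ψ, FreeMonoid.lift_eval_of])
      (fun j hj => by simp [ψ, FreeMonoid.lift_eval_of, hj]) p
    let χ : Word →* Word := FreeMonoid.lift (fun i => if i = a then x else 1)
    have hq1 : φ q = χ q := by
      apply hom_congr
      intro i hi
      have hib : i ≠ b := fun h => hb (h ▸ hi)
      by_cases hia : i = a
      · subst hia; rw [hφa]; simp [χ, FreeMonoid.lift_eval_of]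
      · rw [hφo i hia hib]; simp [χ, FreeMonoid.lift_eval_of, hia]
    obtain ⟨j, hj, hj1, _⟩ := one_letter a x χ (by simp [χ, FreeMonoid.lift_eval_of])
      (fun j hj => by simp [χ, FreeMonoid.lift_eval_of, hj]) q
    have h1 := ρ.sub φ hs
    rw [map_mul, map_mul, map_mul, hφa, hφb, hp1, hq1, hi, hj] at h1
    obtain ⟨i', rfl⟩ : ∃ i', i = i' + 1 := ⟨i - 1, by have := hi1 hbp; omega⟩
    obtain ⟨j', rfl⟩ : ∃ j', j = j' + 1 := ⟨j - 1, by have := hj1 haq; omega⟩
    -- y ≤ y^(i'+1) x
    have h2 : leR ρ y (y ^ (i' + 1) * x) := by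
      have := pre h (y ^ i' * x) y (by
        rw [ct_mul]
        exact Finset.union_subset (ct_pow_sub _ _) (hxy ▸ Finset.Subset.refl _))
      rwa [← mul_assoc, ← pow_succ'] at this
    have h3 : leR ρ (x ^ (j' + 1) * y * φ s) x := by
      refine ⟨x ^ j' * y * φ s, ?_⟩
      rw [pow_succ', mul_assoc, mul_assoc, mul_assoc]
      exact of_eq (by simp only [mul_assoc])
    exact leR_trans h2 (leR_trans (leR_of_r h1) h3)
  intro x y hxy
  exact ⟨key y x hxy.symm, key x y hxy⟩

/-- `w = p a s` where `a` is the last new letter -/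
def Dec (w p : Word) (a : ℕ) : Prop := ∃ s, w = p * of a * s ∧ a ∉ ct p ∧ ct s ⊆ insert a (ct p)

theorem Dec.ct {w p : Word} {a : ℕ} (h : Dec w p a) :
    Pool.Agent.Helper14_MV.ct w = insert a (Pool.Agent.Helper14_MV.ct p) := by
  obtain ⟨s, rfl, _, hs⟩ := h
  rw [ct_mul, ct_mul, ct_of]
  apply Finset.Subset.antisymm
  · apply Finset.union_subset _ hs
    intro x hx
    simp only [Finset.mem_union, Finset.mem_singleton] at hx
    simp only [Finset.mem_insert]
    tauto
  · intro x hx
    simp only [Finset.mem_insert] at hx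
    simp only [Finset.mem_union, Finset.mem_singleton]
    tauto

theorem dec_exists_list (l : List ℕ) : l ≠ [] → ∃ p a, Dec (FreeMonoid.ofList l) p a := by
  induction l using List.reverseRecOn with
  | nil => intro h; exact absurd rfl h
  | append_singleton l x ih =>
    intro _
    have h1 : FreeMonoid.ofList (l ++ [x]) = FreeMonoid.ofList l * of x := rfl
    by_cases hx : x ∈ Pool.Agent.Helper14_MV.ct (FreeMonoid.ofList l)
    · have hl : l ≠ [] := by
        rintro rfl
        simp [Pool.Agent.Helper14_MV.ct] at hx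
      obtain ⟨p, a, hd⟩ := ih hl
      have hc := hd.ct
      obtain ⟨s, hs, ha, hsub⟩ := hd
      refine ⟨p, a, s * of x, ?_, ha, ?_⟩
      · rw [h1, hs, mul_assoc]
      · rw [ct_mul, ct_of]
        apply Finset.union_subset hsub
        intro y hy
        rw [Finset.mem_singleton] at hy
        subst hy
        rw [← hc]; exact hx
    · refine ⟨FreeMonoid.ofList l, x, 1, ?_, hx, ?_⟩
      · rw [h1, mul_one]
      · simp

theorem dec_exists {w : Word} (h : w ≠ 1) : ∃ p a, Dec w p a := by
  have := dec_exists_list (FreeMonoid.toList w) (by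
    intro h1
    exact h h1)
  exact this

theorem Dec.eqR {n : ℕ} (h : CR n ρ) {w p : Word} {a : ℕ} (hd : Dec w p a) :
    eqR ρ w (p * of a) := by
  obtain ⟨s, rfl, _, hs⟩ := hd
  refine eqR_symm (eqR_pre h ?_)
  rw [ct_mul, ct_of]
  intro x hx
  have := hs hx
  simp only [Finset.mem_insert] at this
  simp only [Finset.mem_union, Finset.mem_singleton]
  tauto

theorem Dec.uniq_list {a : ℕ} : ∀ (p q s t : List ℕ), a ∉ p → a ∉ q →
    p ++ a :: s = q ++ a :: t → p = q := by
  intro p
  induction p with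
  | nil =>
    intro q s t _ hq h
    cases q with
    | nil => rfl
    | cons b q =>
      simp only [List.nil_append, List.cons_append, List.cons.injEq] at h
      exact absurd (by simp [h.1]) hq
  | cons c p ih =>
    intro q s t hp hq h
    cases q with
    | nil =>
      simp only [List.nil_append, List.cons_append, List.cons.injEq] at h
      exact absurd (by simp [h.1]) hp
    | cons b q =>
      simp only [List.cons_append, List.cons.injEq] at h
      have h1 := ih q s t (fun h' => hp (List.mem_cons_of_mem _ h'))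
        (fun h' => hq (List.mem_cons_of_mem _ h')) h.2
      rw [h.1, h1]

theorem Dec.uniq {w p q : Word} {a : ℕ} (h : Dec w p a) (k : Dec w q a) : p = q := by
  obtain ⟨s, hs, hp, _⟩ := h
  obtain ⟨t, ht, hq, _⟩ := k
  rw [hs] at ht
  have h1 := Dec.uniq_list (a := a) (FreeMonoid.toList p) (FreeMonoid.toList q)
    (FreeMonoid.toList s) (FreeMonoid.toList t)
    (fun h' => hp (by rw [Pool.Agent.Helper14_MV.ct, List.mem_toFinset]; exact h'))
    (fun h' => hq (by rw [Pool.Agent.Helper14_MV.ct, List.mem_toFinset]; exact h'))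
    (by
      have := congrArg FreeMonoid.toList ht
      simpa [FreeMonoid.toList_mul, FreeMonoid.toList_of] using this)
  exact FreeMonoid.toList.injective h1

/-- one step -/
theorem step_dec {n : ℕ} (h : CR n ρ) (hc : Cont ρ) (ho : Ord ρ) {w w' p : Word} {a : ℕ}
    (hw : ρ.r w w') (hd : Dec w p a) : ∃ q, Dec w' q a ∧ (low ρ).r p q := by
  have hct := hc _ _ hw
  have hne : w' ≠ 1 := by
    rintro rfl
    have := hd.ct
    rw [hct, ct_one] at this
    exact absurd this.symm (Finset.insert_ne_empty _ _)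
  obtain ⟨q, b, hd'⟩ := dec_exists hne
  have h1 : FIC.eqR ρ (p * of a) (q * of b) :=
    eqR_trans (eqR_symm (hd.eqR h)) (eqR_trans (eqR_of_r hw) (hd'.eqR h))
  have h2 : insert a (ct p) = insert b (ct q) := by
    rw [← hd.ct, ← hd'.ct, hct]
  have ha : a ∉ ct p := by obtain ⟨_, _, h, _⟩ := hd; exact h
  have hb : b ∉ ct q := by obtain ⟨_, _, h, _⟩ := hd'; exact h
  have hab : a = b := ho p q a b ha hb h2 h1.1
  subst hab
  exact ⟨q, hd', low_of_fresh ha hb h1⟩

/-- the chain lemma -/
theorem chain_dec {n : ℕ} (hρ : CR n ρ) (hσ : CR n σ) (cρ : Cont ρ) (cσ : Cont σ)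
    (oρ : Ord ρ) (oσ : Ord σ) {w w' p : Word} {a : ℕ}
    (hw : (sup ρ σ).r w w') (hd : Dec w p a) :
    ∃ q, Dec w' q a ∧ (sup (low ρ) (low σ)).r p q := by
  induction hw with
  | refl => exact ⟨p, hd, (sup (low ρ) (low σ)).refl p⟩
  | tail _ h2 ih =>
    obtain ⟨q, hq, hpq⟩ := ih
    rcases h2 with h2 | h2
    · obtain ⟨q', hq', h3⟩ := step_dec hρ cρ oρ h2 hq
      exact ⟨q', hq', (sup (low ρ) (low σ)).trans hpq (le_sup_left _ _ _ _ h3)⟩
    · obtain ⟨q', hq', h3⟩ := step_dec hσ cσ oσ h2 hq
      exact ⟨q', hq', (sup (low ρ) (low σ)).trans hpq (le_sup_right _ _ _ _ h3)⟩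

/-- the induction statement -/
def Q (n k : ℕ) : Prop := ∀ ρ σ τ : FIC, CR n ρ → CR n σ → CR n τ → ρ ≤ τ → ∀ w v : Word,
  ct w = ct v → (ct w).card ≤ k → (sup ρ σ).r w v → τ.r w v → (sup ρ (inf σ τ)).r w v

theorem Rpart {n k : ℕ} (IH : Q n k) (hρ : CR n ρ) (hσ : CR n σ) (hτ : CR n τ) (hle : ρ ≤ τ)
    {w v : Word} (hct : ct w = ct v) (hcard : (ct w).card ≤ k + 1)
    (h1 : (sup ρ σ).r w v) (h2 : τ.r w v) : eqR (sup ρ (inf σ τ)) w v := by
  have hκ : CR n (sup ρ (inf σ τ)) := hρ.mono (le_sup_left _ _)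
  by_cases hF : Full (sup ρ (inf σ τ))
  · exact hF w v hct
  have hO : Ord (sup ρ (inf σ τ)) := by
    by_contra h
    exact hF (full_of_not_ord hκ h)
  have hC : Cont (sup ρ (inf σ τ)) := by
    by_contra h
    have hg := grp_of_not_cont hκ h
    exact hF (fun a b _ => ⟨hg.leR hκ.1 a b, hg.leR hκ.1 b a⟩)
  have oρ : Ord ρ := fun p q a b ha hb hab hl =>
    hO p q a b ha hb hab (leR_mono (le_sup_left _ _) hl)
  have cρ : Cont ρ := fun a b hab => hC a b (le_sup_left _ _ a b hab)
  by_cases hFσ : Full σ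
  · have h3 := eqR_inf hσ hτ (hFσ w v hct) (eqR_of_r h2)
    exact eqR_mono (le_sup_right _ _) h3
  have oσ : Ord σ := by
    by_contra h
    exact hFσ (full_of_not_ord hσ h)
  have cσ : Cont σ := by
    by_contra h
    have hg := grp_of_not_cont hσ h
    exact hFσ (fun a b _ => ⟨hg.leR hσ.1 a b, hg.leR hσ.1 b a⟩)
  by_cases hw : w = 1
  · subst hw
    have : v = 1 := ct_eq_empty (by rw [← hct, ct_one])
    subst this
    exact eqR_refl 1
  obtain ⟨p, a, hd⟩ := dec_exists hw
  obtain ⟨q, hq, hpq⟩ := chain_dec hρ hσ cρ cσ oρ oσ h1 hd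
  have hap : a ∉ ct p := by obtain ⟨_, _, h, _⟩ := hd; exact h
  have haq : a ∉ ct q := by obtain ⟨_, _, h, _⟩ := hq; exact h
  have hlow : (low τ).r p q := by
    apply low_of_fresh hap haq
    exact eqR_trans (eqR_symm (hd.eqR hτ)) (eqR_trans (eqR_of_r h2) (hq.eqR hτ))
  have hpqct : ct p = ct q := by
    have h3 : insert a (ct p) = insert a (ct q) := by rw [← hd.ct, ← hq.ct, hct]
    have h4 := congrArg (fun s => s.erase a) h3
    simpa [Finset.erase_insert hap, Finset.erase_insert haq] using h4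
  have hcardp : (ct p).card ≤ k := by
    have h3 := hd.ct
    rw [h3, Finset.card_insert_of_notMem hap] at hcard
    omega
  have h5 := IH (low ρ) (low σ) (low τ) (hρ.mono (le_low _)) (hσ.mono (le_low _))
    (hτ.mono (le_low _)) (low_mono hle) p q hpqct hcardp hpq hlow
  have h6 : sup (low ρ) (inf (low σ) (low τ)) ≤ low (sup ρ (inf σ τ)) := by
    apply sup_le
    · exact low_mono (le_sup_left _ _)
    · intro x y hxy
      exact low_mono (le_sup_right ρ (inf σ τ)) x y (low_inf hσ hτ hxy.1 hxy.2)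
  have h7 := h6 _ _ h5 (of a)
  exact eqR_trans (hd.eqR hκ) (eqR_trans h7 (eqR_symm (hq.eqR hκ)))

/-- reversal -/
def op (ρ : FIC) : FIC where
  r := fun a b => ρ.r a.reverse b.reverse
  refl := fun _ => ρ.refl _
  symm := fun h => ρ.symm h
  trans := fun h k => ρ.trans h k
  mul := fun h k => by
    rw [FreeMonoid.reverse_mul, FreeMonoid.reverse_mul]
    exact ρ.mul k h
  sub := by
    intro φ a b h
    let ψ : Word →* Word :=
      { toFun := fun w => (φ w.reverse).reverse
        map_one' := by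
          have h0 : (1 : Word).reverse = 1 := rfl
          show (φ (1 : Word).reverse).reverse = 1
          rw [h0, map_one, h0]
        map_mul' := by
          intro x y
          show (φ (x * y).reverse).reverse = (φ x.reverse).reverse * (φ y.reverse).reverse
          rw [FreeMonoid.reverse_mul, map_mul, FreeMonoid.reverse_mul] }
    have h1 := ρ.sub ψ h
    have h2 : ∀ w : Word, ψ w.reverse = (φ w).reverse := by
      intro w
      show (φ w.reverse.reverse).reverse = (φ w).reverse
      rw [FreeMonoid.reverse_reverse]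
    rw [h2, h2] at h1
    exact h1

theorem op_mono (h : ρ ≤ σ) : op ρ ≤ op σ := fun _ _ k => h _ _ k

theorem reverse_pow (w : Word) (n : ℕ) : (w ^ n).reverse = w.reverse ^ n := by
  induction n with
  | zero => simp only [pow_zero]; rfl
  | succ n ih => rw [pow_succ, FreeMonoid.reverse_mul, ih, pow_succ']

theorem CR.op {n : ℕ} (h : CR n ρ) : CR n (op ρ) := by
  refine ⟨h.1, fun w => ?_⟩
  show ρ.r (w ^ (n + 1)).reverse w.reverse
  rw [reverse_pow]
  exact h.2 _

theorem ct_reverse (w : Word) : ct w.reverse = ct w := by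
  unfold ct
  ext x
  simp only [List.mem_toFinset]
  exact List.mem_reverse

theorem sup_op {w v : Word} (h : (sup ρ σ).r w v) :
    (sup (op ρ) (op σ)).r w.reverse v.reverse := by
  induction h with
  | refl => exact (sup (op ρ) (op σ)).refl _
  | tail _ h2 ih =>
    refine (sup (op ρ) (op σ)).trans ih (Relation.ReflTransGen.single ?_)
    rcases h2 with h2 | h2
    · left
      show ρ.r _ _
      rw [FreeMonoid.reverse_reverse, FreeMonoid.reverse_reverse]; exact h2
    · right
      show σ.r _ _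
      rw [FreeMonoid.reverse_reverse, FreeMonoid.reverse_reverse]; exact h2

theorem Lpart {n k : ℕ} (IH : Q n k) (hρ : CR n ρ) (hσ : CR n σ) (hτ : CR n τ) (hle : ρ ≤ τ)
    {w v : Word} (hct : ct w = ct v) (hcard : (ct w).card ≤ k + 1)
    (h1 : (sup ρ σ).r w v) (h2 : τ.r w v) : ∃ s, (sup ρ (inf σ τ)).r v (s * w) := by
  have h3 := Rpart IH hρ.op hσ.op hτ.op (op_mono hle) (w := w.reverse) (v := v.reverse)
    (by rw [ct_reverse, ct_reverse, hct]) (by rw [ct_reverse]; exact hcard) (sup_op h1)
    (by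
      show τ.r _ _
      rw [FreeMonoid.reverse_reverse, FreeMonoid.reverse_reverse]; exact h2)
  obtain ⟨s, hs⟩ := h3.2
  refine ⟨s.reverse, ?_⟩
  have h4 := sup_op hs
  have h5 : sup (op (op ρ)) (op (inf (op σ) (op τ))) ≤ sup ρ (inf σ τ) := by
    apply sup_le
    · intro a b hab
      apply le_sup_left
      have : ρ.r a.reverse.reverse b.reverse.reverse := hab
      rwa [FreeMonoid.reverse_reverse, FreeMonoid.reverse_reverse] at this
    · intro a b hab
      apply le_sup_right
      have h6 : σ.r a.reverse.reverse b.reverse.reverse ∧ τ.r a.reverse.reverse b.reverse.reverse :=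
        hab
      rwa [FreeMonoid.reverse_reverse, FreeMonoid.reverse_reverse] at h6
  have h7 := h5 _ _ h4
  rwa [FreeMonoid.reverse_reverse, FreeMonoid.reverse_mul, FreeMonoid.reverse_reverse] at h7

/-- the group part -/
theorem grp_part {n : ℕ} {κ : FIC} (hκ : CR n κ) (hρκ : ρ ≤ κ) (hκτ : κ ≤ τ)
    (hστ : ∀ a b, σ.r a b → τ.r a b → κ.r a b) {w v : Word}
    (hB : ∀ u, ct u ⊆ ct w ∪ ct v → leR κ (w ^ n) (w ^ n * u * w ^ n))
    (hR : leR κ v w) (hL : ∃ s, κ.r v (s * w))
    (h1 : (sup ρ σ).r w v) (h2 : τ.r w v) : κ.r w v := by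
  obtain ⟨l, hl⟩ : ∃ l, n = l + 1 := ⟨n - 1, by have := hκ.1; omega⟩
  set e : Word := w ^ n with he
  have hee : κ.r (e * e) e := hκ.idem w
  have hwe : κ.r (w * e) w := by
    have : w * e = w ^ (n + 1) := by rw [he, pow_succ']
    rw [this]; exact hκ.2 w
  have hew : κ.r (e * w) w := by
    have : e * w = w ^ (n + 1) := by rw [he, pow_succ]
    rw [this]; exact hκ.2 w
  -- powers of the conjugated words
  have hpow : ∀ u, ct u ⊆ ct w ∪ ct v → κ.r ((e * u * e) ^ n) e := by
    intro u hu
    obtain ⟨s, hs⟩ := hB u hu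
    have h3 : κ.r ((e * u * e) ^ n * e) e := (leR_iff hκ).1 ⟨s, hs⟩
    have h4 : κ.r ((e * u * e) ^ n * e) ((e * u * e) ^ n) := by
      have h5 : (e * u * e) ^ n = (e * u * e) ^ l * (e * u * e) := by rw [hl, pow_succ]
      rw [h5]
      have h6 : (e * u * e) ^ l * (e * u * e) * e = (e * u * e) ^ l * (e * u) * (e * e) := by
        simp only [mul_assoc]
      have h7 : (e * u * e) ^ l * (e * u * e) = (e * u * e) ^ l * (e * u) * e := by
        simp only [mul_assoc]
      rw [h6, h7]
      exact mulL _ hee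
    exact κ.trans (κ.symm h4) h3
  -- restrict the chain to the letters of w and v
  let A := ct w ∪ ct v
  have h3 := (sup ρ σ).sub (er A) h1
  rw [er_id (Finset.subset_union_left), er_id (Finset.subset_union_right)] at h3
  -- chain invariant
  have key : ∀ z, (sup ρ σ).r w z → ∃ T F, σ.r T F ∧ κ.r F e ∧
      κ.r (w * T) (e * er A z * e) := by
    intro z hz
    induction hz with
    | refl =>
      refine ⟨e, e, σ.refl e, κ.refl e, ?_⟩
      rw [er_id (Finset.subset_union_left)]
      exact mulR e (κ.symm hew)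
    | tail _ hstep ih =>
      rename_i y z _
      obtain ⟨T, F, hTF, hFe, hwT⟩ := ih
      have hcy : ct (er A y) ⊆ ct w ∪ ct v := ct_er _ _
      rcases hstep with hstep | hstep
      · refine ⟨T, F, hTF, hFe, κ.trans hwT ?_⟩
        exact mulR e (mulL e (hρκ _ _ (ρ.sub (er A) hstep)))
      · have hst : σ.r (e * er A y * e) (e * er A z * e) :=
          mulR e (mulL e (σ.sub (er A) hstep))
        refine ⟨T * ((e * er A y * e) ^ l * (e * er A z * e)),
          F * ((e * er A y * e) ^ l * (e * er A y * e)), ?_, ?_, ?_⟩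
        · exact σ.mul hTF (mulL _ (σ.symm hst))
        · rw [← pow_succ, ← hl]
          exact κ.trans (κ.mul hFe (hpow _ hcy)) hee
        · rw [← mul_assoc, ← mul_assoc]
          have h8 : κ.r (w * T * (e * er A y * e) ^ l) ((e * er A y * e) ^ n) := by
            rw [hl, pow_succ']
            exact mulR _ hwT
          have h9 : κ.r (w * T * (e * er A y * e) ^ l * (e * er A z * e)) (e * (e * er A z * e)) :=
            mulR _ (κ.trans h8 (hpow _ hcy))
          refine κ.trans h9 ?_
          have h10 : e * (e * er A z * e) = (e * e) * (er A z * e) := by simp only [mul_assoc]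
          have h11 : e * er A z * e = e * (er A z * e) := by simp only [mul_assoc]
          rw [h10, h11]
          exact mulR _ hee
  obtain ⟨T, F, hTF, hFe, hwT⟩ := key v h1
  rw [er_id (Finset.subset_union_right)] at hwT
  -- e v e = v
  have hev : κ.r (e * v) v := (leR_iff hκ).1 hR
  have hve : κ.r (v * e) v := by
    obtain ⟨s, hs⟩ := hL
    have h4 : κ.r (v * e) (s * w * e) := mulR e hs
    rw [mul_assoc] at h4
    exact κ.trans h4 (κ.trans (mulL s hwe) (κ.symm hs))
  have hwTv : κ.r (w * T) v := κ.trans hwT (κ.trans (mulR e hev) hve)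
  -- τ
  have h5 : τ.r (w * T) w := τ.trans (hκτ _ _ hwTv) (τ.symm h2)
  have h6 : τ.r (e * T) e := by
    have h7 : τ.r (w ^ l * (w * T)) (w ^ l * w) := mulL _ h5
    rw [← mul_assoc, ← pow_succ, ← hl] at h7
    exact h7
  have h8 : τ.r (e * F) e := hκτ _ _ (κ.trans (mulL e hFe) hee)
  have h9 : κ.r (e * T) (e * F) := hστ _ _ (mulL e hTF) (τ.trans h6 (τ.symm h8))
  have h10 : κ.r (e * T) e := κ.trans h9 (κ.trans (mulL e hFe) hee)
  have h11 : κ.r (w * T) w := by
    have h12 : κ.r (w * e * T) (w * T) := mulR T hwe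
    have h13 : κ.r (w * (e * T)) (w * e) := mulL w h10
    rw [mul_assoc] at h12
    exact κ.trans (κ.symm h12) (κ.trans h13 hwe)
  exact κ.trans (κ.symm h11) hwTv

theorem Qall (n : ℕ) : ∀ k, Q n k := by
  intro k
  induction k with
  | zero =>
    intro ρ σ τ _ _ _ _ w v hct hcard _ _
    have h1 : ct w = ∅ := Finset.card_eq_zero.1 (by omega)
    have hw : w = 1 := ct_eq_empty h1
    have hv : v = 1 := ct_eq_empty (by rw [← hct]; exact h1)
    subst hw; subst hv
    exact FIC.refl _ _
  | succ k IH =>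
    intro ρ σ τ hρ hσ hτ hle w v hct hcard h1 h2
    have hκ : CR n (sup ρ (inf σ τ)) := hρ.mono (le_sup_left _ _)
    have hR := Rpart IH hρ hσ hτ hle hct hcard h1 h2
    have hL := Lpart IH hρ hσ hτ hle hct hcard h1 h2
    refine grp_part hκ (le_sup_left _ _) (sup_le hle (inf_le_right _ _))
      (fun a b ha hb => le_sup_right _ _ a b ⟨ha, hb⟩) ?_ hR.2 hL h1 h2
    intro u hu
    rw [mul_assoc]
    apply pre hκ
    rw [ct_mul, ct_pow w hκ.1]
    rw [← hct, Finset.union_self] at hu
    exact Finset.union_subset hu (Finset.Subset.refl _)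

theorem modular_CR {n : ℕ} {β : FIC} (hβ : CR n β) : ModF β := by
  intro ρ σ τ hρ hσ hτ hle w v h1 h2
  have cρ := hβ.mono hρ
  have cσ := hβ.mono hσ
  have cτ := hβ.mono hτ
  have hκ : CR n (sup ρ (inf σ τ)) := cρ.mono (le_sup_left _ _)
  by_cases hct : ct w = ct v
  · exact Qall n _ ρ σ τ cρ cσ cτ hle w v hct (le_refl _) h1 h2
  · -- group case
    have hτg : Grp n τ := grp_of_not_cont cτ (fun h => hct (h w v h2))
    have hκg : Grp n (sup ρ (inf σ τ)) := by
      by_cases h3 : Cont ρ
      · have h4 : ¬ Cont σ := by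
          intro h4
          apply hct
          have : ∀ z, (sup ρ σ).r w z → ct w = ct z := by
            intro z hz
            induction hz with
            | refl => rfl
            | tail _ h5 ih => rw [ih]; exact h5.elim (h3 _ _) (h4 _ _)
          exact this v h1
        have hσg := grp_of_not_cont cσ h4
        exact fun z => le_sup_right _ _ _ _ ⟨hσg z, hτg z⟩
      · exact (grp_of_not_cont cρ h3).mono (le_sup_left _ _)
    refine grp_part hκ (le_sup_left _ _) (sup_le hle (inf_le_right _ _))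
      (fun a b ha hb => le_sup_right _ _ a b ⟨ha, hb⟩) ?_ (hκg.leR hκ.1 _ _) ?_ h1 h2
    · intro u _
      exact hκg.leR hκ.1 _ _
    · obtain ⟨l, hl⟩ : ∃ l, n = l + 1 := ⟨n - 1, by have := hκ.1; omega⟩
      refine ⟨v * w ^ l, ?_⟩
      have h3 : (sup ρ (inf σ τ)).r (v * w ^ n) (v * 1) := mulL v (hκg w)
      rw [mul_one, hl, pow_succ, ← mul_assoc] at h3
      exact FIC.symm _ h3

end FIC

end Pool.Agent.Helper14_MV
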