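import Pool.Agent.Helper14_MV.Defs

/-!
Fully invariant congruences of the free monoid and their relation with varieties.
-/

namespace Pool.Agent.Helper14_MV

/-- fully invariant congruence on the free monoid -/
structure FIC where
  r : Word → Word → Prop
  refl : ∀ a, r a a
  symm : ∀ {a b}, r a b → r b a
  trans : ∀ {a b c}, r a b → r b c → r a c
  mul : ∀ {a b c d}, r a b → r c d → r (a * c) (b * d)
  sub : ∀ (φ : Word →* Word) {a b}, r a b → r (φ a) (φ b)

namespace FIC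

instance : LE FIC := ⟨fun ρ σ => ∀ a b, ρ.r a b → σ.r a b⟩

theorem le_def {ρ σ : FIC} : ρ ≤ σ ↔ ∀ a b, ρ.r a b → σ.r a b := Iff.rfl

theorem ext' {ρ σ : FIC} (h : ∀ a b, ρ.r a b ↔ σ.r a b) : ρ = σ := by
  cases ρ with
  | mk r1 _ _ _ _ _ =>
    cases σ with
    | mk r2 _ _ _ _ _ =>
      have : r1 = r2 := by
        funext a b
        exact propext (h a b)
      subst this
      rfl

/-- intersection -/
def inf (ρ σ : FIC) : FIC where
  r := fun a b => ρ.r a b ∧ σ.r a b
  refl := fun a => ⟨ρ.refl a, σ.refl a⟩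
  symm := fun h => ⟨ρ.symm h.1, σ.symm h.2⟩
  trans := fun h k => ⟨ρ.trans h.1 k.1, σ.trans h.2 k.2⟩
  mul := fun h k => ⟨ρ.mul h.1 k.1, σ.mul h.2 k.2⟩
  sub := fun φ _ _ h => ⟨ρ.sub φ h.1, σ.sub φ h.2⟩

/-- one step of the join -/
def stp (ρ σ : FIC) (a b : Word) : Prop := ρ.r a b ∨ σ.r a b

theorem stp_symm {ρ σ : FIC} {a b : Word} (h : stp ρ σ a b) : stp ρ σ b a :=
  h.elim (fun h => Or.inl (ρ.symm h)) (fun h => Or.inr (σ.symm h))

theorem rtg_symm {ρ σ : FIC} {a b : Word} (h : Relation.ReflTransGen (stp ρ σ) a b) :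
    Relation.ReflTransGen (stp ρ σ) b a := by
  induction h with
  | refl => exact Relation.ReflTransGen.refl
  | tail _ h2 ih => exact Relation.ReflTransGen.head (stp_symm h2) ih

/-- join -/
def sup (ρ σ : FIC) : FIC where
  r := Relation.ReflTransGen (stp ρ σ)
  refl := fun _ => Relation.ReflTransGen.refl
  symm := fun h => rtg_symm h
  trans := fun h k => h.trans k
  mul := by
    intro a b c d h k
    have h1 : Relation.ReflTransGen (stp ρ σ) (a * c) (b * c) := by
      refine Relation.ReflTransGen.lift (fun w => w * c) ?_ _ _ h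
      intro x y hxy
      exact hxy.elim (fun h => Or.inl (ρ.mul h (ρ.refl c))) (fun h => Or.inr (σ.mul h (σ.refl c)))
    have h2 : Relation.ReflTransGen (stp ρ σ) (b * c) (b * d) := by
      refine Relation.ReflTransGen.lift (fun w => b * w) ?_ _ _ k
      intro x y hxy
      exact hxy.elim (fun h => Or.inl (ρ.mul (ρ.refl b) h)) (fun h => Or.inr (σ.mul (σ.refl b) h))
    exact h1.trans h2
  sub := by
    intro φ a b h
    refine Relation.ReflTransGen.lift (fun w => φ w) ?_ _ _ h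
    intro x y hxy
    exact hxy.elim (fun h => Or.inl (ρ.sub φ h)) (fun h => Or.inr (σ.sub φ h))

theorem le_sup_left (ρ σ : FIC) : ρ ≤ sup ρ σ := fun _ _ h =>
  Relation.ReflTransGen.single (Or.inl h)

theorem le_sup_right (ρ σ : FIC) : σ ≤ sup ρ σ := fun _ _ h =>
  Relation.ReflTransGen.single (Or.inr h)

theorem sup_le {ρ σ τ : FIC} (h1 : ρ ≤ τ) (h2 : σ ≤ τ) : sup ρ σ ≤ τ := by
  intro a b h
  induction h with
  | refl => exact τ.refl a
  | tail _ h3 ih => exact τ.trans ih (h3.elim (h1 _ _) (h2 _ _))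

theorem inf_le_left (ρ σ : FIC) : inf ρ σ ≤ ρ := fun _ _ h => h.1
theorem inf_le_right (ρ σ : FIC) : inf ρ σ ≤ σ := fun _ _ h => h.2
theorem le_inf {ρ σ τ : FIC} (h1 : τ ≤ ρ) (h2 : τ ≤ σ) : τ ≤ inf ρ σ :=
  fun _ _ h => ⟨h1 _ _ h, h2 _ _ h⟩

theorem le_refl' (ρ : FIC) : ρ ≤ ρ := fun _ _ h => h
theorem le_trans' {ρ σ τ : FIC} (h1 : ρ ≤ σ) (h2 : σ ≤ τ) : ρ ≤ τ :=
  fun _ _ h => h2 _ _ (h1 _ _ h)

theorem pow {ρ : FIC} {a b : Word} (h : ρ.r a b) (n : ℕ) : ρ.r (a ^ n) (b ^ n) := by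
  induction n with
  | zero => simpa using ρ.refl 1
  | succ n ih => rw [pow_succ, pow_succ]; exact ρ.mul ih h

theorem mulL {ρ : FIC} (c : Word) {a b : Word} (h : ρ.r a b) : ρ.r (c * a) (c * b) :=
  ρ.mul (ρ.refl c) h

theorem mulR {ρ : FIC} (c : Word) {a b : Word} (h : ρ.r a b) : ρ.r (a * c) (b * c) :=
  ρ.mul h (ρ.refl c)

theorem of_eq {ρ : FIC} {a b : Word} (h : a = b) : ρ.r a b := h ▸ ρ.refl a

/-- the congruence -/
def con (ρ : FIC) : Con Word where
  r := ρ.r
  iseqv := ⟨ρ.refl, ρ.symm, ρ.trans⟩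
  mul' := ρ.mul

end FIC

/-- The equational theory of a variety. -/
def th (V : Variety) : FIC where
  r := fun u v => V.Sat u v
  refl := fun _ _ _ _ _ => rfl
  symm := fun h M _ hM φ => (h M hM φ).symm
  trans := fun h k M _ hM φ => (h M hM φ).trans (k M hM φ)
  mul := fun h k M _ hM φ => by rw [map_mul, map_mul, h M hM φ, k M hM φ]
  sub := fun ψ _ _ h M _ hM φ => h M hM (φ.comp ψ)

/-- The variety defined by a fully invariant congruence. -/
def ofFIC (ρ : FIC) : Variety where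
  Mem := fun M _ => ∀ u v : Word, ρ.r u v → Sat M u v
  eqn := ⟨{e | ρ.r e.1 e.2}, fun M _ => by
    constructor
    · rintro h ⟨u, v⟩ h1
      exact h u v h1
    · intro h u v h1
      exact h (u, v) h1⟩

theorem quot_sat (ρ : FIC) {u v : Word} (h : ρ.r u v) : Sat ρ.con.Quotient u v := by
  intro φ
  have hs : ∀ q : ρ.con.Quotient, ∃ w : Word, ρ.con.mk' w = q := fun q =>
    Con.mk'_surjective q
  choose f hf using hs
  let ψ : Word →* Word := FreeMonoid.lift (fun i => f (φ (FreeMonoid.of i)))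
  have hψ : ρ.con.mk'.comp ψ = φ := by
    apply FreeMonoid.hom_eq
    intro i
    simp only [MonoidHom.comp_apply, ψ, FreeMonoid.lift_eval_of]
    exact hf _
  rw [← hψ]
  simp only [MonoidHom.comp_apply]
  exact (Con.eq ρ.con).2 (ρ.sub ψ h)

theorem th_ofFIC (ρ : FIC) : th (ofFIC ρ) = ρ := by
  apply FIC.ext'
  intro u v
  constructor
  · intro h
    have h1 := h ρ.con.Quotient (fun a b hab => quot_sat ρ hab) ρ.con.mk'
    exact (Con.eq ρ.con).1 h1
  · intro h M _ hM
    exact hM u v h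

theorem ofFIC_th (V : Variety) : ofFIC (th V) = V := by
  apply Variety.ext'
  intro M _
  constructor
  · intro h
    obtain ⟨E, hE⟩ := V.eqn
    refine (hE M).2 fun e he => h e.1 e.2 ?_
    intro N _ hN
    exact (hE N).1 hN e he
  · intro h u v huv
    exact huv M h

theorem le_iff_th {V W : Variety} : V ≤ W ↔ th W ≤ th V := by
  constructor
  · intro h u v huv M _ hM
    exact huv M (h M hM)
  · intro h
    rw [← ofFIC_th V, ← ofFIC_th W]
    intro M _ hM u v huv
    exact hM u v (h u v huv)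

theorem ofFIC_le {ρ σ : FIC} : ofFIC ρ ≤ ofFIC σ ↔ σ ≤ ρ := by
  rw [le_iff_th, th_ofFIC, th_ofFIC]

theorem th_sup (V W : Variety) : th (V ⊔ W) = FIC.inf (th V) (th W) := by
  apply FIC.ext'
  intro u v
  constructor
  · intro h
    exact ⟨fun M _ hM => h M (le_sup_left (a := V) (b := W) M hM),
      fun M _ hM => h M (le_sup_right (a := V) (b := W) M hM)⟩
  · intro h M _ hM
    exact hM u v h.1 h.2

theorem th_inf (V W : Variety) : th (V ⊓ W) = FIC.sup (th V) (th W) := by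
  have h1 : V ⊓ W = ofFIC (FIC.sup (th V) (th W)) := by
    apply Variety.ext'
    intro M _
    constructor
    · intro h u v huv
      have hle : FIC.sup (th V) (th W) ≤ th (V ⊓ W) := by
        apply FIC.sup_le
        · intro a b hab N _ hN
          exact hab N hN.1
        · intro a b hab N _ hN
          exact hab N hN.2
      exact hle u v huv M h
    · intro h
      have hV : (ofFIC (th V)).Mem M := fun u v huv => h u v (FIC.le_sup_left _ _ u v huv)
      have hW : (ofFIC (th W)).Mem M := fun u v huv => h u v (FIC.le_sup_right _ _ u v huv)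
      rw [ofFIC_th] at hV hW
      exact ⟨hV, hW⟩
  rw [h1, th_ofFIC]

/-- modular law for fully invariant congruences above `β` -/
def ModF (β : FIC) : Prop :=
  ∀ ρ σ τ : FIC, β ≤ ρ → β ≤ σ → β ≤ τ → ρ ≤ τ →
    ∀ u v, (FIC.sup ρ σ).r u v → τ.r u v → (FIC.sup ρ (FIC.inf σ τ)).r u v

/-- distributive law for fully invariant congruences above `β` -/
def DistF (β : FIC) : Prop :=
  ∀ ρ σ τ : FIC, β ≤ ρ → β ≤ σ → β ≤ τ →
    ∀ u v, (FIC.sup ρ σ).r u v → (FIC.sup ρ τ).r u v → (FIC.sup ρ (FIC.inf σ τ)).r u v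

theorem th_inj {V W : Variety} (h : th V = th W) : V = W := by
  rw [← ofFIC_th V, ← ofFIC_th W, h]

theorem modular_iff (V : Variety) : V.ModularLattice ↔ ModF (th V) := by
  constructor
  · intro h ρ σ τ hρ hσ hτ hle u v h1 h2
    have hk : ∀ ρ : FIC, th V ≤ ρ → ofFIC ρ ≤ V := by
      intro ρ hρ
      rw [le_iff_th, th_ofFIC]
      exact hρ
    have h3 := h (ofFIC τ) (ofFIC σ) (ofFIC ρ) (hk τ hτ) (hk σ hσ) (hk ρ hρ)
      (ofFIC_le.2 hle)
    have h4 := congrArg th h3
    rw [th_sup, th_inf, th_inf, th_sup, th_ofFIC, th_ofFIC, th_ofFIC] at h4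
    -- inf τ (sup σ ρ) = sup (inf τ σ) ρ
    have h5 : (FIC.inf τ (FIC.sup σ ρ)).r u v := by
      refine ⟨h2, ?_⟩
      exact FIC.sup_le (FIC.le_sup_right σ ρ) (FIC.le_sup_left σ ρ) u v h1
    rw [h4] at h5
    refine FIC.sup_le ?_ (FIC.le_sup_left _ _) u v h5
    intro a b hab
    exact FIC.le_sup_right _ _ a b ⟨hab.2, hab.1⟩
  · intro h X Y Z hX hY hZ hXZ
    apply th_inj
    rw [th_sup, th_inf, th_inf, th_sup]
    apply FIC.ext'
    intro u v
    constructor
    · rintro ⟨h1, h2⟩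
      have h3 := h (th Z) (th Y) (th X) (le_iff_th.1 hZ) (le_iff_th.1 hY) (le_iff_th.1 hX)
        (le_iff_th.1 hXZ) u v
        (FIC.sup_le (FIC.le_sup_right _ _) (FIC.le_sup_left _ _) u v h2) h1
      refine FIC.sup_le (FIC.le_sup_right _ _) ?_ u v h3
      intro a b hab
      exact FIC.le_sup_left _ _ a b ⟨hab.2, hab.1⟩
    · intro h1
      refine FIC.sup_le ?_ ?_ u v h1
      · intro a b hab
        exact ⟨hab.1, FIC.le_sup_left _ _ a b hab.2⟩
      · intro a b hab
        exact ⟨le_iff_th.1 hXZ a b hab, FIC.le_sup_right _ _ a b hab⟩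

theorem distrib_iff (V : Variety) : V.DistribLattice ↔ DistF (th V) := by
  constructor
  · intro h ρ σ τ hρ hσ hτ u v h1 h2
    have hk : ∀ ρ : FIC, th V ≤ ρ → ofFIC ρ ≤ V := by
      intro ρ hρ
      rw [le_iff_th, th_ofFIC]
      exact hρ
    have h3 := h (ofFIC ρ) (ofFIC σ) (ofFIC τ) (hk ρ hρ) (hk σ hσ) (hk τ hτ)
    have h4 := congrArg th h3
    rw [th_inf, th_sup, th_sup, th_inf, th_inf, th_ofFIC, th_ofFIC, th_ofFIC] at h4
    have h5 : (FIC.inf (FIC.sup ρ σ) (FIC.sup ρ τ)).r u v := ⟨h1, h2⟩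
    rw [← h4] at h5
    exact h5
  · intro h X Y Z hX hY hZ
    apply th_inj
    rw [th_inf, th_sup, th_sup, th_inf, th_inf]
    apply FIC.ext'
    intro u v
    constructor
    · intro h1
      refine ⟨FIC.sup_le (FIC.le_sup_left _ _) ?_ u v h1, FIC.sup_le (FIC.le_sup_left _ _) ?_ u v h1⟩
      · intro a b hab
        exact FIC.le_sup_right _ _ a b hab.1
      · intro a b hab
        exact FIC.le_sup_right _ _ a b hab.2
    · rintro ⟨h1, h2⟩
      exact h (th X) (th Y) (th Z) (le_iff_th.1 hX) (le_iff_th.1 hY) (le_iff_th.1 hZ) u v h1 h2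

theorem distF_modF {β : FIC} (h : DistF β) : ModF β := by
  intro ρ σ τ hρ hσ hτ hle u v h1 h2
  exact h ρ σ τ hρ hσ hτ u v h1 (FIC.le_sup_right _ _ u v h2)

end Pool.Agent.Helper14_MV
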