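import Mathlib

/-!
# Varieties of monoids and their subvariety lattices

Monoids are algebras with multiplication and the constant `1`; words over the countable
alphabet `ℕ`, the empty word is allowed and denotes `1`.
-/

namespace Pool.Agent.Helper14_MV

/-- Words over the countable alphabet `ℕ` (the empty word is allowed). -/
abbrev Word := FreeMonoid ℕ

/-- The monoid `M` satisfies the identity `u ≈ v`: both words have the same value under every
substitution of elements of `M` for the letters. -/
def Sat (M : Type) [Monoid M] (u v : Word) : Prop :=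
  ∀ φ : Word →* M, φ u = φ v

/-- A variety of monoids: a class of monoids which is the class of all monoids satisfying a given
set of identities. -/
structure Variety where
  /-- membership of a monoid in the class -/
  Mem : ∀ (M : Type) [Monoid M], Prop
  /-- the class is given by a set of identities -/
  eqn : ∃ E : Set (Word × Word), ∀ (M : Type) [Monoid M],
    Mem M ↔ ∀ e ∈ E, Sat M e.1 e.2

/-- The variety `V` satisfies the identity `u ≈ v`. -/
def Variety.Sat (V : Variety) (u v : Word) : Prop :=
  ∀ (M : Type) [Monoid M], V.Mem M → Pool.Agent.Helper14_MV.Sat M u v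

/-- Varieties are ordered by inclusion of classes. -/
instance : LE Variety := ⟨fun V W => ∀ (M : Type) [Monoid M], V.Mem M → W.Mem M⟩

theorem Variety.ext' {V W : Variety} (h : ∀ (M : Type) [Monoid M], V.Mem M ↔ W.Mem M) :
    V = W := by
  cases V with
  | mk A hA =>
    cases W with
    | mk B hB =>
      have : A = B := by
        funext M i
        exact propext (@h M i)
      subst this
      rfl

/-- Intersection of two varieties. -/
def Variety.inter (V W : Variety) : Variety where
  Mem := fun M _ => V.Mem M ∧ W.Mem M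
  eqn := by
    obtain ⟨E, hE⟩ := V.eqn
    obtain ⟨F, hF⟩ := W.eqn
    refine ⟨E ∪ F, fun M _ => ?_⟩
    rw [hE M, hF M]
    constructor
    · rintro ⟨h1, h2⟩ e (he | he)
      · exact h1 e he
      · exact h2 e he
    · intro h
      exact ⟨fun e he => h e (Or.inl he), fun e he => h e (Or.inr he)⟩

/-- Join of two varieties: the class of all monoids satisfying all the identities which hold in
both varieties. -/
def Variety.join (V W : Variety) : Variety where
  Mem := fun M _ => ∀ u v : Word, V.Sat u v → W.Sat u v → Pool.Agent.Helper14_MV.Sat M u v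
  eqn := ⟨{e | V.Sat e.1 e.2 ∧ W.Sat e.1 e.2}, fun M _ => by
    constructor
    · rintro h ⟨u, v⟩ ⟨h1, h2⟩
      exact h u v h1 h2
    · intro h u v h1 h2
      exact h (u, v) ⟨h1, h2⟩⟩

/-- The lattice of all varieties of monoids, ordered by inclusion. -/
instance : Lattice Variety where
  le := (· ≤ ·)
  lt := fun V W => V ≤ W ∧ ¬ W ≤ V
  le_refl := fun _ _ _ h => h
  le_trans := fun _ _ _ h1 h2 M _ h => h2 M (h1 M h)
  lt_iff_le_not_ge := fun _ _ => Iff.rfl
  le_antisymm := fun _ _ h1 h2 => Variety.ext' (fun M _ => ⟨h1 M, h2 M⟩)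
  sup := Variety.join
  inf := Variety.inter
  le_sup_left := fun V _ M _ h _ _ h1 _ => h1 M h
  le_sup_right := fun _ W M _ h _ _ _ h2 => h2 M h
  sup_le := fun V W U h1 h2 M _ h => by
    obtain ⟨E, hE⟩ := U.eqn
    refine (hE M).2 fun e he => h e.1 e.2 ?_ ?_
    · intro N _ hN
      exact (hE N).1 (h1 N hN) e he
    · intro N _ hN
      exact (hE N).1 (h2 N hN) e he
  inf_le_left := fun _ _ _ _ h => h.1
  inf_le_right := fun _ _ _ _ h => h.2
  le_inf := fun _ _ _ h1 h2 M _ h => ⟨h1 M h, h2 M h⟩

/-- The lattice `L(V)` of all subvarieties of `V` is modular. -/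
def Variety.ModularLattice (V : Variety) : Prop :=
  ∀ X Y Z : Variety, X ≤ V → Y ≤ V → Z ≤ V → X ≤ Z → X ⊔ (Y ⊓ Z) = (X ⊔ Y) ⊓ Z

/-- The lattice `L(V)` of all subvarieties of `V` is distributive. -/
def Variety.DistribLattice (V : Variety) : Prop :=
  ∀ X Y Z : Variety, X ≤ V → Y ≤ V → Z ≤ V → X ⊓ (Y ⊔ Z) = (X ⊓ Y) ⊔ (X ⊓ Z)

/-- Three letters. -/
def lx : Word := FreeMonoid.of 0
/-- The letter `y`. -/
def ly : Word := FreeMonoid.of 1
/-- The letter `z`. -/
def lz : Word := FreeMonoid.of 2

/-- The variety of all commutative monoids. -/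
def Com : Variety where
  Mem := fun M _ => ∀ a b : M, a * b = b * a
  eqn := ⟨{(lx * ly, ly * lx)}, fun M _ => by
    constructor
    · rintro h e rfl φ
      simp only [map_mul]
      exact h _ _
    · intro h a b
      have := h (lx * ly, ly * lx) rfl (FreeMonoid.lift (fun i => if i = 0 then a else b))
      simpa [lx, ly, FreeMonoid.lift_eval_of] using this⟩

/-- The variety of all monoids satisfying `x ^ (K + 1) ≈ x ^ K`. -/
def Aper (K : ℕ) : Variety where
  Mem := fun M _ => ∀ a : M, a ^ (K + 1) = a ^ K
  eqn := ⟨{(lx ^ (K + 1), lx ^ K)}, fun M _ => by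
    constructor
    · rintro h e rfl φ
      simp only [map_pow]
      exact h _
    · intro h a
      have := h (lx ^ (K + 1), lx ^ K) rfl (FreeMonoid.lift (fun _ => a))
      simpa [lx, ly, FreeMonoid.lift_eval_of] using this⟩

/-- `V` is a variety of completely regular monoids: every element of a member of `V` lies in a
subgroup, i.e. `a = a b a` and `a b = b a` for some `b`. -/
def Variety.CompletelyRegular (V : Variety) : Prop :=
  ∀ (M : Type) [Monoid M], V.Mem M → ∀ a : M, ∃ b : M, a * b * a = a ∧ a * b = b * a

/-- All members of `V` are commutative. -/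
def Variety.Commutative (V : Variety) : Prop :=
  ∀ (M : Type) [Monoid M], V.Mem M → ∀ a b : M, a * b = b * a

end Pool.Agent.Helper14_MV
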