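import Pool.Agent.Helper14_MV.B2

/-!
If all large powers are central then the variety is the join of its commutative part and of its
aperiodic part.
-/

namespace Pool.Agent.Helper14_MV

open FreeMonoid (of)

/-- powers with exponent at least `k` are central modulo `β` -/
def Cen (β : FIC) (k : ℕ) : Prop := ∀ m, k ≤ m → ∀ s t : Word, β.r (s ^ m * t) (t * s ^ m)

theorem cen_of {β : FIC} {k : ℕ} (h : ∀ m, k ≤ m → β.r (lx ^ m * ly) (ly * lx ^ m)) :
    Cen β k := by
  intro m hm s t
  have := β.sub (FreeMonoid.lift (fun i => if i = 0 then s else t)) (h m hm)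
  simpa [lx, ly, FreeMonoid.lift_eval_of] using this

variable {β : FIC} {k K : ℕ}

/-- erase the letters of `A` -/
def era (A : Finset ℕ) : Word →* Word :=
  FreeMonoid.lift (fun i => if i ∈ A then 1 else of i)

theorem era_mem {A : Finset ℕ} {i : ℕ} (h : i ∈ A) : era A (of i) = 1 := by
  simp [era, FreeMonoid.lift_eval_of, h]

theorem era_not_mem {A : Finset ℕ} {i : ℕ} (h : i ∉ A) : era A (of i) = of i := by
  simp [era, FreeMonoid.lift_eval_of, h]

theorem era_empty (w : Word) : era ∅ w = w := by
  have := hom_congr (era ∅) (MonoidHom.id Word) w (fun i _ => by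
    rw [era_not_mem (by simp)]; rfl)
  rw [this]; rfl

theorem era_era (A B : Finset ℕ) (w : Word) : era A (era B w) = era (A ∪ B) w := by
  have := hom_congr ((era A).comp (era B)) (era (A ∪ B)) w (fun i _ => by
    rw [MonoidHom.comp_apply]
    by_cases hB : i ∈ B
    · rw [era_mem hB, map_one, era_mem (Finset.mem_union_right _ hB)]
    · rw [era_not_mem hB]
      by_cases hA : i ∈ A
      · rw [era_mem hA, era_mem (Finset.mem_union_left _ hA)]
      · rw [era_not_mem hA, era_not_mem (by simp [hA, hB])])
  exact this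

theorem era_comm (A B : Finset ℕ) (w : Word) : era A (era B w) = era B (era A w) := by
  rw [era_era, era_era, Finset.union_comm]

theorem era_id {A : Finset ℕ} {w : Word} (h : ∀ i ∈ ct w, i ∉ A) : era A w = w := by
  have := hom_congr (era A) (MonoidHom.id Word) w (fun i hi => by
    rw [era_not_mem (h i hi)]; rfl)
  rw [this]; rfl

theorem era_one {A : Finset ℕ} {w : Word} (h : ct w ⊆ A) : era A w = 1 := by
  have := hom_congr (era A) (1 : Word →* Word) w (fun i hi => by
    rw [era_mem (h hi)]; rfl)
  rw [this]; rfl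

theorem ct_era (A : Finset ℕ) (w : Word) : ∀ i ∈ ct (era A w), i ∉ A := by
  intro i hi hA
  have h1 : ct (era A w) ⊆ (ct w) \ A := by
    apply ct_hom
    intro j hj
    by_cases hjA : j ∈ A
    · rw [era_mem hjA]; simp
    · rw [era_not_mem hjA, ct_of]
      intro x hx
      rw [Finset.mem_singleton] at hx
      subst hx
      exact Finset.mem_sdiff.2 ⟨hj, hjA⟩
  exact (Finset.mem_sdiff.1 (h1 hi)).2 hA

/-- gather a letter -/
theorem gather (hC : Cen β k) (x : ℕ) (w : Word) : ∀ e, k ≤ e →
    β.r (of x ^ e * w) (of x ^ (e + cnt x w) * era {x} w) := by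
  induction w using FreeMonoid.inductionOn' with
  | one => intro e _; simpa using β.refl _
  | of_mul b u ih =>
    intro e he
    by_cases hb : b = x
    · subst hb
      rw [map_mul, era_mem (by simp), one_mul, cnt_mul, cnt_of, if_pos rfl, ← mul_assoc,
        ← pow_succ]
      have := ih (e + 1) (by omega)
      rwa [show e + 1 + cnt b u = e + (1 + cnt b u) by ring] at this
    · rw [map_mul, era_not_mem (by simpa using hb), cnt_mul, cnt_of, if_neg hb, zero_add]
      have h1 : β.r (of x ^ e * (of b * u)) (of b * (of x ^ e * u)) := by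
        rw [← mul_assoc, ← mul_assoc]
        exact FIC.mulR u (hC e he _ _)
      have h2 : β.r (of b * (of x ^ e * u)) (of b * (of x ^ (e + cnt x u) * era {x} u)) :=
        FIC.mulL _ (ih e he)
      have h3 : β.r (of b * (of x ^ (e + cnt x u) * era {x} u))
          (of x ^ (e + cnt x u) * (of b * era {x} u)) := by
        rw [← mul_assoc, ← mul_assoc]
        exact FIC.mulR _ (β.symm (hC _ (by omega) _ _))
      exact β.trans h1 (β.trans h2 h3)

/-- the letter `x` is high in `w` -/
def High (β : FIC) (K x : ℕ) (w : Word) : Prop :=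
  ∃ f, K ≤ f ∧ ∃ w' : Word, x ∉ ct w' ∧ β.r w (of x ^ f * w')

theorem High.congr {x : ℕ} {w w' : Word} (h : High β K x w) (hw : β.r w w') : High β K x w' := by
  obtain ⟨f, hf, v, hv, h1⟩ := h
  exact ⟨f, hf, v, hv, β.trans (β.symm hw) h1⟩

theorem high_of_front (hC : Cen β k) (_hK : k ≤ K) {x : ℕ} {w v : Word} {e : ℕ} (he : k ≤ e)
    (hcount : K ≤ e + cnt x v) (h : β.r w (of x ^ e * v)) : High β K x w :=
  ⟨e + cnt x v, hcount, era {x} v, fun h' => ct_era {x} v x h' (by simp),
    β.trans h (gather hC x v e he)⟩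

theorem High.mul (hC : Cen β k) (hK : k ≤ K) {x : ℕ} {w : Word} (h : High β K x w) (p q : Word) :
    High β K x (p * w * q) := by
  obtain ⟨f, hf, w', _, h1⟩ := h
  refine high_of_front hC hK (e := f) (v := p * w' * q) (by omega) (by omega) ?_
  have h2 : β.r (p * w * q) (p * (of x ^ f * w') * q) := FIC.mulR q (FIC.mulL p h1)
  have h3 : β.r (p * of x ^ f * (w' * q)) (of x ^ f * p * (w' * q)) :=
    FIC.mulR _ (β.symm (hC f (by omega) _ _))
  have e1 : p * (of x ^ f * w') * q = p * of x ^ f * (w' * q) := by simp only [mul_assoc]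
  have e2 : of x ^ f * (p * w' * q) = of x ^ f * p * (w' * q) := by simp only [mul_assoc]
  rw [e1] at h2
  rw [e2]
  exact β.trans h2 h3

/-- the exponent may be used with the erased word -/
theorem High.spec {x : ℕ} {w : Word} (h : High β K x w) :
    ∃ f, K ≤ f ∧ β.r w (of x ^ f * era {x} w) ∧ β.r (of x ^ cnt x w) (of x ^ f) := by
  obtain ⟨f, hf, w', hx, h1⟩ := h
  have h2 := β.sub (era {x}) h1
  have h0 : era {x} w' = w' := era_id (by
    intro i hi hi'
    rw [Finset.mem_singleton] at hi'
    subst hi'
    exact hx hi)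
  rw [map_mul, map_pow, era_mem (by simp), one_pow, one_mul, h0] at h2
  refine ⟨f, hf, β.trans h1 (FIC.mulL _ (β.symm h2)), ?_⟩
  -- erase all other letters
  let ψ : Word →* Word := FreeMonoid.lift (fun i => if i = x then of x else 1)
  have hψ : ∀ v : Word, ψ v = of x ^ cnt x v := by
    intro v
    induction v using FreeMonoid.inductionOn' with
    | one => simp
    | of_mul b u ih =>
      rw [map_mul, ih, cnt_mul, cnt_of]
      by_cases hb : b = x
      · subst hb; simp [ψ, FreeMonoid.lift_eval_of, pow_add]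
      · simp [ψ, FreeMonoid.lift_eval_of, hb]
  have h3 := β.sub ψ h1
  rw [hψ, hψ, cnt_mul, cnt_pow, cnt_of, if_pos rfl, cnt_eq_zero.2 hx, mul_one, add_zero] at h3
  exact h3

theorem mul_pow_comm (a c : Word) (n : ℕ) : (a * c) ^ (n + 1) = a * (c * a) ^ n * c := by
  induction n with
  | zero => simp
  | succ n ih =>
    rw [pow_succ, ih, pow_succ]
    simp only [mul_assoc]

/-- `(a b)^(j+i) ~ a^i b^i (a b)^j` -/
theorem split_pow (hC : Cen β k) (a b : Word) {j : ℕ} (hj : k ≤ j) (i : ℕ) :
    β.r ((a * b) ^ (j + i)) (a ^ i * b ^ i * (a * b) ^ j) := by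
  induction i with
  | zero => simpa using β.refl _
  | succ i ih =>
    have e1 : (a * b) ^ (j + (i + 1)) = (a * b) ^ (j + i) * (a * b) := by
      rw [← add_assoc, pow_succ]
    rw [e1]
    have h1 : β.r ((a * b) ^ (j + i) * (a * b)) (a * (a * b) ^ (j + i) * b) := by
      rw [← mul_assoc]
      exact FIC.mulR b (hC _ (by omega) _ _)
    have h2 : β.r (a * (a * b) ^ (j + i) * b) (a * (a ^ i * b ^ i * (a * b) ^ j) * b) :=
      FIC.mulR b (FIC.mulL a ih)
    have h3 : β.r (a * (a ^ i * b ^ i * (a * b) ^ j) * b)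
        (a * (a ^ i * b ^ i) * (b * (a * b) ^ j)) := by
      have e2 : a * (a ^ i * b ^ i * (a * b) ^ j) * b = a * (a ^ i * b ^ i) * ((a * b) ^ j * b) := by
        simp only [mul_assoc]
      rw [e2]
      exact FIC.mulL _ (hC j hj _ _)
    have e3 : a * (a ^ i * b ^ i) * (b * (a * b) ^ j) = a ^ (i + 1) * b ^ (i + 1) * (a * b) ^ j := by
      rw [pow_succ' a, pow_succ b]; simp only [mul_assoc]
    rw [e3] at h3
    exact β.trans h1 (β.trans h2 h3)

theorem high_pow (hC : Cen β k) (hK : 2 * k + 1 ≤ K) {x : ℕ} {s : Word} (hx : x ∈ ct s) {e : ℕ}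
    (he : K ≤ e) : High β K x (s ^ e) := by
  obtain ⟨a, b, rfl⟩ := word_split hx
  obtain ⟨i, rfl⟩ : ∃ i, e = k + i + 1 := ⟨e - k - 1, by omega⟩
  set s := a * of x * b with hs
  set z := of x * (b * a) with hz
  have h1 : s ^ (k + i + 1) = a * z ^ (k + i) * (of x * b) := by
    rw [hs, mul_assoc, mul_pow_comm, mul_assoc (of x)]
  have h2 : β.r (a * z ^ (k + i) * (of x * b)) (z ^ (k + i) * a * (of x * b)) :=
    FIC.mulR _ (β.symm (hC _ (by omega) _ _))
  have h3 : z ^ (k + i) * a * (of x * b) = z ^ (k + i) * s := by rw [hs]; simp only [mul_assoc]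
  rw [h3, ← h1] at h2
  have h4 : β.r (z ^ (k + i) * s) (of x ^ i * ((b * a) ^ i * z ^ k * s)) := by
    have := FIC.mulR s (split_pow hC (of x) (b * a) (le_refl k) i)
    have e1 : of x ^ i * ((b * a) ^ i * z ^ k * s) = of x ^ i * (b * a) ^ i * (of x * (b * a)) ^ k * s := by
      rw [hz]; simp only [mul_assoc]
    rw [e1]; exact this
  refine high_of_front hC (by omega) (e := i) (by omega) ?_ (β.trans h2 h4)
  rw [cnt_mul, cnt_mul, cnt_pow, cnt_pow, hz, hs]
  simp only [cnt_mul, cnt_of, if_pos]
  nlinarith [Nat.zero_le (cnt x a), Nat.zero_le (cnt x b), Nat.zero_le (i * (cnt x b + cnt x a)),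
    Nat.zero_le (k * (cnt x b + cnt x a))]

theorem high_of_era (hC : Cen β k) (hK : k ≤ K) {B : Finset ℕ} {x : ℕ} {w : Word}
    (hB : ∀ y ∈ B, High β K y w) (h : High β K x (era B w)) : High β K x w := by
  induction B using Finset.induction_on with
  | empty => rwa [era_empty] at h
  | insert y B hy ih =>
    apply ih (fun z hz => hB z (Finset.mem_insert_of_mem hz))
    rw [Finset.insert_eq, ← era_era] at h
    -- y is high in era B w
    have hyw : High β K y (era B w) := by
      obtain ⟨f, hf, w', hyw', h1⟩ := hB y (Finset.mem_insert_self _ _)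
      have h2 := β.sub (era B) h1
      rw [map_mul, map_pow, era_not_mem hy] at h2
      refine ⟨f, hf, era B w', ?_, h2⟩
      intro h3
      apply hyw'
      have h4 : ct (era B w') ⊆ ct w' := by
        apply ct_hom
        intro j hj
        by_cases hjA : j ∈ B
        · rw [era_mem hjA]; simp
        · rw [era_not_mem hjA, ct_of]; simpa using hj
      exact h4 h3
    obtain ⟨g, hg, h1, _⟩ := hyw.spec
    have h2 := (h.mul hC hK (of y ^ g) 1).congr (β.symm (by rw [mul_one]; exact h1))
    exact h2

/-- the theory of the aperiodic part -/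
def del (β : FIC) (k K : ℕ) (hC : Cen β k) (hK : 2 * k + 1 ≤ K) : FIC where
  r := fun u v => ∃ A : Finset ℕ, (∀ x ∈ A, High β K x u ∧ High β K x v) ∧
    β.r (era A u) (era A v)
  refl := fun a => ⟨∅, by simp, β.refl _⟩
  symm := by
    rintro a b ⟨A, h1, h2⟩
    exact ⟨A, fun x hx => (h1 x hx).symm, β.symm h2⟩
  trans := by
    rintro u v w ⟨A, hA, h1⟩ ⟨B, hB, h2⟩
    have hAB : ∀ (A B : Finset ℕ) (u v w : Word), (∀ x ∈ A, High β K x u ∧ High β K x v) →
        (∀ x ∈ B, High β K x v ∧ High β K x w) → β.r (era B v) (era B w) →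
        ∀ x ∈ A, High β K x w := by
      intro A B u v w hA hB h2 x hx
      by_cases hxB : x ∈ B
      · exact (hB x hxB).2
      · apply high_of_era hC (by omega) (fun y hy => (hB y hy).2)
        refine High.congr ?_ h2
        obtain ⟨f, hf, w', hyw', h3⟩ := (hA x hx).2
        have h4 := β.sub (era B) h3
        rw [map_mul, map_pow, era_not_mem hxB] at h4
        refine ⟨f, hf, era B w', ?_, h4⟩
        intro h5
        apply hyw'
        have h6 : ct (era B w') ⊆ ct w' := by
          apply ct_hom
          intro j hj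
          by_cases hjA : j ∈ B
          · rw [era_mem hjA]; simp
          · rw [era_not_mem hjA, ct_of]; simpa using hj
        exact h6 h5
    refine ⟨A ∪ B, ?_, ?_⟩
    · intro x hx
      rcases Finset.mem_union.1 hx with hx | hx
      · exact ⟨(hA x hx).1, hAB A B u v w hA hB h2 x hx⟩
      · exact ⟨hAB B A w v u (fun x hx => (hB x hx).symm) (fun x hx => (hA x hx).symm) (β.symm h1)
          x hx, (hB x hx).2⟩
    · have e1 : β.r (era (A ∪ B) u) (era (A ∪ B) v) := by
        rw [Finset.union_comm, ← era_era, ← era_era]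
        exact β.sub (era B) h1
      have e2 : β.r (era (A ∪ B) v) (era (A ∪ B) w) := by
        rw [← era_era, ← era_era]
        exact β.sub (era A) h2
      exact β.trans e1 e2
  mul := by
    rintro u v u' v' ⟨A, hA, h1⟩ ⟨B, hB, h2⟩
    refine ⟨A ∪ B, ?_, ?_⟩
    · intro x hx
      rcases Finset.mem_union.1 hx with hx | hx
      · have := hA x hx
        have a1 := this.1.mul hC (by omega) 1 u'
        have a2 := this.2.mul hC (by omega) 1 v'
        rw [one_mul] at a1 a2
        exact ⟨a1, a2⟩
      · have := hB x hx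
        have a1 := this.1.mul hC (by omega) u 1
        have a2 := this.2.mul hC (by omega) v 1
        rw [mul_one] at a1 a2
        exact ⟨a1, a2⟩
    · rw [map_mul, map_mul]
      apply β.mul
      · rw [Finset.union_comm, ← era_era, ← era_era]
        exact β.sub (era B) h1
      · rw [← era_era, ← era_era]
        exact β.sub (era A) h2
  sub := by
    rintro φ u v ⟨A, hA, h1⟩
    have key : ∀ w : Word, (∀ y ∈ A, High β K y w) → ∀ x ∈ A.biUnion (fun y => ct (φ (of y))),
        High β K x (φ w) := by
      intro w hw x hx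
      obtain ⟨y, hy, hxy⟩ := Finset.mem_biUnion.1 hx
      obtain ⟨f, hf, w', _, h2⟩ := hw y hy
      have h3 := β.sub φ h2
      rw [map_mul, map_pow] at h3
      have h4 := (high_pow hC hK hxy hf).mul hC (by omega) 1 (φ w')
      rw [one_mul] at h4
      exact h4.congr (β.symm h3)
    have key2 : ∀ w : Word, era (A.biUnion (fun y => ct (φ (of y)))) (φ w) =
        era (A.biUnion (fun y => ct (φ (of y)))) (φ (era A w)) := by
      intro w
      have := hom_congr ((era (A.biUnion (fun y => ct (φ (of y))))).comp φ)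
        (((era (A.biUnion (fun y => ct (φ (of y))))).comp φ).comp (era A)) w (by
          intro i _
          simp only [MonoidHom.comp_apply]
          by_cases hi : i ∈ A
          · rw [era_mem hi, map_one, map_one]
            apply era_one
            intro x hx
            exact Finset.mem_biUnion.2 ⟨i, hi, hx⟩
          · rw [era_not_mem hi])
      exact this
    refine ⟨A.biUnion (fun y => ct (φ (of y))), ?_, ?_⟩
    · intro x hx
      exact ⟨key u (fun y hy => (hA y hy).1) x hx, key v (fun y hy => (hA y hy).2) x hx⟩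
    · rw [key2 u, key2 v]
      exact β.sub _ (β.sub φ h1)

theorem le_del (hC : Cen β k) (hK : 2 * k + 1 ≤ K) : β ≤ del β k K hC hK := by
  intro u v h
  refine ⟨∅, by simp, ?_⟩
  rw [era_empty, era_empty]; exact h

theorem aper_le_del (hC : Cen β k) (hK : 2 * k + 1 ≤ K) : th (Aper K) ≤ del β k K hC hK := by
  intro u v h
  have h1 : (Aper K).Mem (del β k K hC hK).con.Quotient := by
    intro a
    obtain ⟨w, rfl⟩ := Con.mk'_surjective a
    rw [← map_pow, ← map_pow]
    refine (Con.eq (del β k K hC hK).con).2 ?_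
    have h2 : (del β k K hC hK).r (lx ^ (K + 1)) (lx ^ K) := by
      refine ⟨{0}, ?_, ?_⟩
      · intro x hx
        rw [Finset.mem_singleton] at hx
        subst hx
        exact ⟨⟨K + 1, by omega, 1, by simp, FIC.of_eq (by rw [mul_one]; rfl)⟩,
          ⟨K, le_refl K, 1, by simp, FIC.of_eq (by rw [mul_one]; rfl)⟩⟩
      · rw [map_pow, map_pow]
        have : era {0} lx = 1 := era_mem (by simp)
        rw [this, one_pow, one_pow]
        exact β.refl _
    have h3 := (del β k K hC hK).sub (FreeMonoid.lift (fun _ => w)) h2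
    show (del β k K hC hK).r (w ^ (K + 1)) (w ^ K)
    simpa [lx, FreeMonoid.lift_eval_of] using h3
  have h2 := h _ h1 (del β k K hC hK).con.mk'
  exact (Con.eq (del β k K hC hK).con).1 h2

/-- exponents in the commutative part -/
theorem com_cnt {u v : Word} (h : (FIC.sup β (th Com)).r u v) (x : ℕ) :
    β.r (of x ^ cnt x u) (of x ^ cnt x v) := by
  let ψ : Word →* Word := FreeMonoid.lift (fun i => if i = x then of x else 1)
  have hψ : ∀ v : Word, ψ v = of x ^ cnt x v := by
    intro v
    induction v using FreeMonoid.inductionOn' with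
    | one => simp
    | of_mul b u ih =>
      rw [map_mul, ih, cnt_mul, cnt_of]
      by_cases hb : b = x
      · subst hb; simp [ψ, FreeMonoid.lift_eval_of, pow_add]
      · simp [ψ, FreeMonoid.lift_eval_of, hb]
  induction h with
  | refl => exact β.refl _
  | tail _ h2 ih =>
    rename_i y z _
    refine β.trans ih ?_
    rcases h2 with h2 | h2
    · have := β.sub ψ h2
      rwa [hψ, hψ] at this
    · have h3 := h2 (Multiplicative ℕ) (fun a b => mul_comm a b)
        (FreeMonoid.lift (fun i => Multiplicative.ofAdd (if i = x then 1 else 0)))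
      have h4 : ∀ w : Word, (FreeMonoid.lift (fun i => Multiplicative.ofAdd
          (if i = x then (1 : ℕ) else 0)) w : Multiplicative ℕ) = Multiplicative.ofAdd (cnt x w) := by
        intro w
        induction w using FreeMonoid.inductionOn' with
        | one => simp
        | of_mul b u ih =>
          rw [map_mul, ih, cnt_mul, cnt_of, FreeMonoid.lift_eval_of, ofAdd_add]
      rw [h4, h4] at h3
      have h5 : cnt x y = cnt x z := Multiplicative.ofAdd.injective h3
      rw [h5]
      exact β.refl _

theorem del_inter (hC : Cen β k) (hK : 2 * k + 1 ≤ K) {u v : Word}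
    (h1 : (del β k K hC hK).r u v) (h2 : ∀ x, β.r (of x ^ cnt x u) (of x ^ cnt x v)) :
    β.r u v := by
  obtain ⟨A, hA, h3⟩ := h1
  induction A using Finset.induction_on with
  | empty => rwa [era_empty, era_empty] at h3
  | insert x B hx ih =>
    apply ih (fun y hy => hA y (Finset.mem_insert_of_mem hy))
    have hera : ∀ w, High β K x w → High β K x (era B w) ∧ cnt x (era B w) = cnt x w := by
      intro w hw
      obtain ⟨f, hf, w', hyw', h1⟩ := hw
      have h2 := β.sub (era B) h1
      rw [map_mul, map_pow, era_not_mem hx] at h2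
      refine ⟨⟨f, hf, era B w', ?_, h2⟩, ?_⟩
      · intro h3
        apply hyw'
        have h4 : ct (era B w') ⊆ ct w' := by
          apply ct_hom
          intro j hj
          by_cases hjA : j ∈ B
          · rw [era_mem hjA]; simp
          · rw [era_not_mem hjA, ct_of]; simpa using hj
        exact h4 h3
      · clear h1 h2
        induction w using FreeMonoid.inductionOn' with
        | one => simp
        | of_mul b u ih =>
          rw [map_mul, cnt_mul, cnt_mul, ih]
          congr 1
          by_cases hb : b ∈ B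
          · have : b ≠ x := fun h => hx (h ▸ hb)
            rw [era_mem hb, cnt_of, if_neg this]; rfl
          · rw [era_not_mem hb]
    obtain ⟨hu, hcu⟩ := hera u (hA x (Finset.mem_insert_self _ _)).1
    obtain ⟨hv, hcv⟩ := hera v (hA x (Finset.mem_insert_self _ _)).2
    obtain ⟨f, _, hf1, hf2⟩ := hu.spec
    obtain ⟨g, _, hg1, hg2⟩ := hv.spec
    rw [hcu] at hf2
    rw [hcv] at hg2
    rw [era_era] at hf1 hg1
    rw [Finset.insert_eq] at h3
    have h5 : β.r (of x ^ f) (of x ^ g) := β.trans (β.symm hf2) (β.trans (h2 x) hg2)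
    exact β.trans hf1 (β.trans (β.mul h5 h3) (β.symm hg1))

/-- **(J)** -/
theorem J {V : Variety} {k K : ℕ} (h : ∀ m, k ≤ m → V.Sat (lx ^ m * ly) (ly * lx ^ m))
    (hK : 2 * k + 1 ≤ K) : V = (V ⊓ Aper K) ⊔ (V ⊓ Com) := by
  have hC : Cen (th V) k := cen_of h
  apply th_inj
  rw [th_sup, th_inf, th_inf]
  apply FIC.ext'
  intro u v
  constructor
  · intro h1
    exact ⟨FIC.le_sup_left _ _ u v h1, FIC.le_sup_left _ _ u v h1⟩
  · rintro ⟨h1, h2⟩
    exact del_inter hC hK (FIC.sup_le (le_del hC hK) (aper_le_del hC hK) u v h1) (com_cnt h2)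

end Pool.Agent.Helper14_MV
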