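import Pool.Agent.Helper14_MV.Bridge

/-!
Contents of words, erasing letters, `R`-relations of fully invariant congruences.
-/

namespace Pool.Agent.Helper14_MV

open FreeMonoid (of)

/-- content of a word -/
def ct (w : Word) : Finset ℕ := w.toList.toFinset

@[simp] theorem ct_one : ct 1 = ∅ := rfl

@[simp] theorem ct_mul (a b : Word) : ct (a * b) = ct a ∪ ct b := by
  simp [ct, FreeMonoid.toList_mul]

@[simp] theorem ct_of (i : ℕ) : ct (of i) = {i} := by
  simp [ct, FreeMonoid.toList_of]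

theorem ct_eq_empty {w : Word} (h : ct w = ∅) : w = 1 := by
  rw [ct, List.toFinset_eq_empty_iff] at h
  exact h

theorem ct_pow_sub (w : Word) (n : ℕ) : ct (w ^ n) ⊆ ct w := by
  induction n with
  | zero => simp
  | succ n ih => rw [pow_succ, ct_mul]; exact Finset.union_subset ih (Finset.Subset.refl _)

theorem ct_pow (w : Word) {n : ℕ} (h : 1 ≤ n) : ct (w ^ n) = ct w := by
  apply Finset.Subset.antisymm (ct_pow_sub w n)
  obtain ⟨m, rfl⟩ : ∃ m, n = m + 1 := ⟨n - 1, by omega⟩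
  rw [pow_succ, ct_mul]
  exact Finset.subset_union_right

theorem word_split {x : ℕ} {w : Word} (h : x ∈ ct w) : ∃ a b, w = a * of x * b := by
  rw [ct, List.mem_toFinset] at h
  obtain ⟨s, t, hst⟩ := List.append_of_mem h
  refine ⟨FreeMonoid.ofList s, FreeMonoid.ofList t, ?_⟩
  apply FreeMonoid.toList.injective
  rw [hst]
  simp [FreeMonoid.toList_mul, FreeMonoid.toList_of]

theorem hom_congr {M : Type*} [Monoid M] (φ ψ : Word →* M) (w : Word)
    (h : ∀ i ∈ ct w, φ (of i) = ψ (of i)) : φ w = ψ w := by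
  induction w using FreeMonoid.inductionOn' with
  | one => simp
  | of_mul b u ih =>
    rw [map_mul, map_mul, h b (by simp), ih (fun i hi => h i (by simp [hi]))]

theorem ct_hom (φ : Word →* Word) (w : Word) (A : Finset ℕ)
    (h : ∀ i ∈ ct w, ct (φ (of i)) ⊆ A) : ct (φ w) ⊆ A := by
  induction w using FreeMonoid.inductionOn' with
  | one => simp
  | of_mul b u ih =>
    rw [map_mul, ct_mul]
    exact Finset.union_subset (h b (by simp)) (ih (fun i hi => h i (by simp [hi])))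

theorem ct_hom_sup (φ : Word →* Word) (w : Word) {i : ℕ} (h : i ∈ ct w) :
    ct (φ (of i)) ⊆ ct (φ w) := by
  obtain ⟨a, b, rfl⟩ := word_split h
  rw [map_mul, map_mul, ct_mul, ct_mul]
  intro x hx
  simp [hx]

/-- erase the letters outside `A` -/
def er (A : Finset ℕ) : Word →* Word :=
  FreeMonoid.lift (fun i => if i ∈ A then of i else 1)

theorem er_of_mem {A : Finset ℕ} {i : ℕ} (h : i ∈ A) : er A (of i) = of i := by
  simp [er, FreeMonoid.lift_eval_of, h]

theorem er_of_not_mem {A : Finset ℕ} {i : ℕ} (h : i ∉ A) : er A (of i) = 1 := by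
  simp [er, FreeMonoid.lift_eval_of, h]

theorem er_id {A : Finset ℕ} {w : Word} (h : ct w ⊆ A) : er A w = w := by
  have := hom_congr (er A) (MonoidHom.id Word) w (fun i hi => by
    rw [er_of_mem (h hi)]; rfl)
  rw [this]; rfl

theorem ct_er (A : Finset ℕ) (w : Word) : ct (er A w) ⊆ A := by
  apply ct_hom
  intro i _
  by_cases hi : i ∈ A
  · rw [er_of_mem hi]; simpa using hi
  · rw [er_of_not_mem hi]; simp

/-- one letter goes to `w`, the others to `1` -/
theorem one_letter (x : ℕ) (w : Word) (φ : Word →* Word) (h1 : φ (of x) = w)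
    (h2 : ∀ i, i ≠ x → φ (of i) = 1) (u : Word) :
    ∃ k, φ u = w ^ k ∧ (x ∈ ct u → 1 ≤ k) ∧ (x ∉ ct u → k = 0) := by
  induction u using FreeMonoid.inductionOn' with
  | one => exact ⟨0, by simp⟩
  | of_mul b u ih =>
    obtain ⟨k, hk, hk1, hk2⟩ := ih
    by_cases hb : b = x
    · subst hb
      refine ⟨k + 1, ?_, fun _ => by omega, fun h => absurd (by simp) h⟩
      rw [map_mul, h1, hk, pow_succ']
    · refine ⟨k, ?_, ?_, ?_⟩
      · rw [map_mul, h2 b hb, hk, one_mul]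
      · intro h
        apply hk1
        simpa [Ne.symm hb] using h
      · intro h
        apply hk2
        simpa [Ne.symm hb] using h

namespace FIC

variable {ρ σ τ : FIC}

/-- `a ≤ b` in Green's `R` preorder modulo `ρ` -/
def leR (ρ : FIC) (a b : Word) : Prop := ∃ s, ρ.r a (b * s)

theorem leR_refl (a : Word) : leR ρ a a := ⟨1, by rw [mul_one]; exact ρ.refl a⟩

theorem leR_trans {a b c : Word} (h : leR ρ a b) (k : leR ρ b c) : leR ρ a c := by
  obtain ⟨s, hs⟩ := h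
  obtain ⟨t, ht⟩ := k
  refine ⟨t * s, ?_⟩
  rw [← mul_assoc]
  exact ρ.trans hs (mulR s ht)

theorem leR_of_r {a b : Word} (h : ρ.r a b) : leR ρ a b := ⟨1, by rw [mul_one]; exact h⟩

theorem leR_mul (a s : Word) : leR ρ (a * s) a := ⟨s, ρ.refl _⟩

theorem leR_mulL (c : Word) {a b : Word} (h : leR ρ a b) : leR ρ (c * a) (c * b) := by
  obtain ⟨s, hs⟩ := h
  exact ⟨s, by rw [mul_assoc]; exact mulL c hs⟩

theorem leR_sub (φ : Word →* Word) {a b : Word} (h : leR ρ a b) : leR ρ (φ a) (φ b) := by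
  obtain ⟨s, hs⟩ := h
  exact ⟨φ s, by rw [← map_mul]; exact ρ.sub φ hs⟩

theorem leR_mono (h : ρ ≤ σ) {a b : Word} (k : leR ρ a b) : leR σ a b := by
  obtain ⟨s, hs⟩ := k
  exact ⟨s, h _ _ hs⟩

/-- `R`-equivalence modulo `ρ` -/
def eqR (ρ : FIC) (a b : Word) : Prop := leR ρ a b ∧ leR ρ b a

theorem eqR_refl (a : Word) : eqR ρ a a := ⟨leR_refl a, leR_refl a⟩
theorem eqR_symm {a b : Word} (h : eqR ρ a b) : eqR ρ b a := ⟨h.2, h.1⟩
theorem eqR_trans {a b c : Word} (h : eqR ρ a b) (k : eqR ρ b c) : eqR ρ a c :=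
  ⟨leR_trans h.1 k.1, leR_trans k.2 h.2⟩
theorem eqR_of_r {a b : Word} (h : ρ.r a b) : eqR ρ a b := ⟨leR_of_r h, leR_of_r (ρ.symm h)⟩
theorem eqR_mulL (c : Word) {a b : Word} (h : eqR ρ a b) : eqR ρ (c * a) (c * b) :=
  ⟨leR_mulL c h.1, leR_mulL c h.2⟩
theorem eqR_sub (φ : Word →* Word) {a b : Word} (h : eqR ρ a b) : eqR ρ (φ a) (φ b) :=
  ⟨leR_sub φ h.1, leR_sub φ h.2⟩
theorem eqR_mono (h : ρ ≤ σ) {a b : Word} (k : eqR ρ a b) : eqR σ a b :=
  ⟨leR_mono h k.1, leR_mono h k.2⟩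

/-- all words satisfy `w ^ (n+1) ≈ w` -/
def CR (n : ℕ) (ρ : FIC) : Prop := 1 ≤ n ∧ ∀ w, ρ.r (w ^ (n + 1)) w

theorem CR.mono {n : ℕ} (h : CR n ρ) (k : ρ ≤ σ) : CR n σ := ⟨h.1, fun w => k _ _ (h.2 w)⟩

theorem CR.of_letter {n : ℕ} (hn : 1 ≤ n) (h : ρ.r (lx ^ (n + 1)) lx) : CR n ρ := by
  refine ⟨hn, fun w => ?_⟩
  have := ρ.sub (FreeMonoid.lift (fun _ => w)) h
  simpa [lx, FreeMonoid.lift_eval_of] using this

theorem pre_letter {n : ℕ} (h : CR n ρ) {p : Word} {x : ℕ} (hx : x ∈ ct p) :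
    leR ρ p (p * of x) := by
  obtain ⟨a, b, rfl⟩ := word_split hx
  refine ⟨b * (of x * b) ^ (n - 1), ?_⟩
  have h1 : ρ.r (a * (of x * b) ^ (n + 1)) (a * (of x * b)) := mulL a (h.2 _)
  obtain ⟨m, hm⟩ : ∃ m, n = m + 1 := ⟨n - 1, by have := h.1; omega⟩
  subst hm
  have h2 : a * of x * b * of x * (b * (of x * b) ^ (m + 1 - 1)) = a * (of x * b) ^ (m + 1 + 1) := by
    rw [Nat.add_sub_cancel, pow_succ' _ (m + 1), pow_succ' _ m]
    simp only [mul_assoc]
  rw [h2]
  have h3 : a * of x * b = a * (of x * b) := mul_assoc _ _ _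
  rw [h3]
  exact ρ.symm h1

theorem pre {n : ℕ} (h : CR n ρ) (w : Word) : ∀ p : Word, ct w ⊆ ct p → leR ρ p (p * w) := by
  induction w using FreeMonoid.inductionOn' with
  | one => intro p _; rw [mul_one]; exact leR_refl p
  | of_mul b u ih =>
    intro p hp
    rw [ct_mul, ct_of] at hp
    have h1 := pre_letter h (p := p) (x := b) (hp (by simp))
    have h2 := ih (p * of b) (by
      rw [ct_mul]
      exact fun i hi => Finset.mem_union_left _ (hp (Finset.mem_union_right _ hi)))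
    have := leR_trans h1 h2
    rwa [mul_assoc] at this

theorem eqR_pre {n : ℕ} (h : CR n ρ) {w p : Word} (hc : ct w ⊆ ct p) : eqR ρ p (p * w) :=
  ⟨pre h w p hc, leR_mul p w⟩

theorem leR_symm {n : ℕ} (h : CR n ρ) {a b : Word} (hab : leR ρ a b) (hc : ct a ⊆ ct b) :
    leR ρ b a := by
  obtain ⟨s, hs⟩ := hab
  have h1 := ρ.sub (er (ct b)) hs
  rw [map_mul, er_id hc, er_id (Finset.Subset.refl _)] at h1
  exact leR_trans (pre h (er (ct b) s) b (ct_er _ _)) (leR_of_r (ρ.symm h1))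

theorem leR_iff {n : ℕ} (h : CR n ρ) {a b : Word} : leR ρ b a ↔ ρ.r (a ^ n * b) b := by
  constructor
  · rintro ⟨s, hs⟩
    have h1 : ρ.r (a ^ n * b) (a ^ n * (a * s)) := mulL _ hs
    have h2 : a ^ n * (a * s) = a ^ (n + 1) * s := by rw [pow_succ, mul_assoc]
    rw [h2] at h1
    exact ρ.trans h1 (ρ.trans (mulR s (h.2 a)) (ρ.symm hs))
  · intro h1
    obtain ⟨m, rfl⟩ : ∃ m, n = m + 1 := ⟨n - 1, by have := h.1; omega⟩
    refine ⟨a ^ m * b, ?_⟩
    rw [pow_succ', mul_assoc] at h1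
    exact ρ.symm h1

theorem leR_inf {n : ℕ} (h : CR n ρ) (k : CR n σ) {a b : Word} (h1 : leR ρ b a)
    (h2 : leR σ b a) : leR (inf ρ σ) b a := by
  have hi : CR n (inf ρ σ) := ⟨h.1, fun w => ⟨h.2 w, k.2 w⟩⟩
  exact (leR_iff hi).2 ⟨(leR_iff h).1 h1, (leR_iff k).1 h2⟩

theorem eqR_inf {n : ℕ} (h : CR n ρ) (k : CR n σ) {a b : Word} (h1 : eqR ρ b a)
    (h2 : eqR σ b a) : eqR (inf ρ σ) b a :=
  ⟨leR_inf h k h1.1 h2.1, leR_inf h k h1.2 h2.2⟩

/-- the left derivative of `ρ` -/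
def low (ρ : FIC) : FIC where
  r := fun p q => ∀ u, eqR ρ (p * u) (q * u)
  refl := fun _ _ => eqR_refl _
  symm := fun h u => eqR_symm (h u)
  trans := fun h k u => eqR_trans (h u) (k u)
  mul := by
    intro a b c d h k u
    rw [mul_assoc, mul_assoc]
    exact eqR_trans (eqR_mulL a (k u)) (h (d * u))
  sub := by
    intro φ a b h u
    -- a fresh letter
    obtain ⟨x, hx⟩ := Infinite.exists_notMem_finset (ct a ∪ ct b)
    rw [Finset.mem_union, not_or] at hx
    have h1 := h (of x)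
    let ψ : Word →* Word := FreeMonoid.lift (fun i => if i = x then u else φ (of i))
    have h2 := eqR_sub ψ h1
    have hψx : ψ (of x) = u := by simp [ψ, FreeMonoid.lift_eval_of]
    have hψ : ∀ w : Word, x ∉ ct w → ψ w = φ w := by
      intro w hw
      apply hom_congr
      intro i hi
      have : i ≠ x := fun h => hw (h ▸ hi)
      simp [ψ, FreeMonoid.lift_eval_of, this]
    rw [map_mul, map_mul, hψx, hψ a hx.1, hψ b hx.2] at h2
    exact h2

theorem le_low (ρ : FIC) : ρ ≤ low ρ := fun _ _ h u => eqR_of_r (mulR u h)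

theorem low_mono (h : ρ ≤ σ) : low ρ ≤ low σ := fun _ _ k u => eqR_mono h (k u)

theorem low_of_fresh {x : ℕ} {p q : Word} (hp : x ∉ ct p) (hq : x ∉ ct q)
    (h : eqR ρ (p * of x) (q * of x)) : (low ρ).r p q := by
  intro u
  let ψ : Word →* Word := FreeMonoid.lift (fun i => if i = x then u else of i)
  have h2 := eqR_sub ψ h
  have hψx : ψ (of x) = u := by simp [ψ, FreeMonoid.lift_eval_of]
  have hψ : ∀ w : Word, x ∉ ct w → ψ w = w := by
    intro w hw
    have := hom_congr ψ (MonoidHom.id Word) w (fun i hi => by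
      have : i ≠ x := fun h => hw (h ▸ hi)
      simp [ψ, FreeMonoid.lift_eval_of, this])
    rw [this]; rfl
  rw [map_mul, map_mul, hψx, hψ p hp, hψ q hq] at h2
  exact h2

theorem low_inf {n : ℕ} (h : CR n ρ) (k : CR n σ) {p q : Word} (h1 : (low ρ).r p q)
    (h2 : (low σ).r p q) : (low (inf ρ σ)).r p q := fun u => eqR_inf h k (h1 u) (h2 u)

end FIC

end Pool.Agent.Helper14_MV
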